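import Pool.Agent.Work.MP_da56a7_lc.Bd.B01

/-! Bundle of small proof modules (one section per former module). -/

section

set_option autoImplicit false

open MeasureTheory Set Filter

namespace Pool.Agent.Work.MP_da56a7_lc.B

namespace AuxAD

theorem half (h : S_Nf) {I X : Type} [LinearOrder I] {b : I → ℕ → Set X} {e : I → I → ℕ}
    {g : I → ℕ → ℕ} {A : I → X → Set ℕ} (hg : ∀ α, StrictMono (g α)) (hs : IsSys b e g A)
    {α β : I} (x : X) (hba : β < α) : (A α x ∩ A β x).Finite := by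
  refine (Set.finite_Iio (g α (e α β))).subset ?_
  rintro k ⟨h1, h2⟩
  have h3 := ((hs α x k).1 h1).2.2 β hba
  have h4 : Nf (g α) k < e α β := by
    by_contra hc
    push Not at hc
    exact h3 hc h2
  exact (h (g α) (hg α)).2 _ _ h4

end AuxAD

theorem pr_AD (h : S_Nf) : S_AD := by
  intro I X _ b e g A hg hs
  refine ⟨?_, ?_, ?_⟩
  · intro α β x hne
    rcases lt_or_gt_of_ne hne with h1 | h1
    · exact AuxAD.half h hg hs x h1
    · rw [Set.inter_comm]
      exact AuxAD.half h hg hs x h1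
  · intro α x j
    refine (Set.finite_Iio (g α j)).subset ?_
    rintro k ⟨h1, h2⟩
    have h3 := ((hs α x k).1 h1).2.1
    have h4 : val k = j := h2
    rw [h4] at h3
    exact (h (g α) (hg α)).2 _ _ h3
  · intro j
    refine Set.infinite_of_injective_forall_mem (f := fun n : ℕ => Nat.pair j n) ?_ ?_
    · intro a c hac
      have := congrArg Nat.unpair hac
      simpa using this
    · intro n
      show val (Nat.pair j n) = j
      unfold val
      simp

end Pool.Agent.Work.MP_da56a7_lc.B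

end

section

/-!
# MP_da56a7_lc, block B: bounding functions on a positive set
-/

set_option autoImplicit false

open MeasureTheory Set Filter

namespace Pool.Agent.Work.MP_da56a7_lc.B

namespace AuxBdd

theorem exists_bound {X : Type} [MeasurableSpace X] (μ : Measure X) [IsProbabilityMeasure μ]
    (allM : ∀ s : Set X, MeasurableSet s) (f : X → ℕ) (ε : ENNReal) (hε : 0 < ε) :
    ∃ m : ℕ, μ {x | m < f x} < ε := by
  have h1 : Tendsto (fun m : ℕ => μ {x | m < f x}) atTop (nhds (μ (⋂ m : ℕ, {x | m < f x}))) := by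
    refine tendsto_measure_iInter_atTop (fun m => (allM _).nullMeasurableSet) ?_
      ⟨0, measure_ne_top _ _⟩
    intro a b hab x hx
    exact lt_of_le_of_lt hab hx
  have h2 : (⋂ m : ℕ, {x | m < f x}) = ∅ := by
    ext x
    simp only [mem_iInter, mem_ofPred_eq, mem_empty_iff_false, iff_false, not_forall, not_lt]
    exact ⟨f x, le_rfl⟩
  rw [h2, measure_empty] at h1
  exact (h1.eventually (gt_mem_nhds hε)).exists

end AuxBdd

theorem pr_Bdd : S_Bdd := by
  intro X _ μ _ allM φ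
  obtain ⟨ε, hε, hsum⟩ := ENNReal.exists_pos_sum_of_countable' (ε := 1) one_ne_zero ℕ
  choose Φ hΦ using fun n => AuxBdd.exists_bound μ allM (fun x => φ x n) (ε n) (hε n)
  refine ⟨Φ, fun h0 => ?_⟩
  have h1 : μ (⋃ n, {x | Φ n < φ x n}) < 1 :=
    lt_of_le_of_lt ((measure_iUnion_le _).trans (ENNReal.tsum_le_tsum fun n => (hΦ n).le)) hsum
  have h2 : (univ : Set X) ⊆ {x | ∀ n, φ x n ≤ Φ n} ∪ ⋃ n, {x | Φ n < φ x n} := by
    intro x _
    by_cases hx : ∀ n, φ x n ≤ Φ n
    · exact Or.inl hx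
    · push Not at hx
      obtain ⟨n, hn⟩ := hx
      exact Or.inr (mem_iUnion.2 ⟨n, hn⟩)
  have h3 : μ (univ : Set X) < 1 := by
    refine lt_of_le_of_lt ((measure_mono h2).trans (measure_union_le _ _)) ?_
    rw [h0, zero_add]
    exact h1
  rw [measure_univ] at h3
  exact lt_irrefl _ h3

end Pool.Agent.Work.MP_da56a7_lc.B

end

section

set_option autoImplicit false

/-!
# MP_da56a7_lc, block B: every set is independent of the bits from some place on
-/

open MeasureTheory Set Filter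

namespace Pool.Agent.Work.MP_da56a7_lc.B

namespace AuxCI1

/-- the sigma-algebra of all the bits -/
@[reducible] def Mg {X J : Type} (R : J → Set X) : MeasurableSpace X :=
  MeasurableSpace.generateFrom (range R)

theorem Sg_mono {X J : Type} [Preorder J] (R : J → Set X) {i j : J} (h : i ≤ j) :
    Sg R i ≤ Sg R j := by
  refine MeasurableSpace.generateFrom_mono ?_
  rintro s ⟨k, hk, rfl⟩
  exact ⟨k, lt_of_lt_of_le hk h, rfl⟩

theorem Sg_le {X J : Type} [LT J] (R : J → Set X) (j : J) :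
    Sg R j ≤ MeasurableSpace.generateFrom (range R) := by
  refine MeasurableSpace.generateFrom_mono ?_
  rintro s ⟨k, _, rfl⟩
  exact ⟨k, rfl⟩

theorem cyl_meas {X J : Type} (R : J → Set X) (s : Finset J) (ε : J → Bool) :
    MeasurableSet[MeasurableSpace.generateFrom (range R)] (cyl R s ε) := by
  have h : cyl R s ε = ⋂ i ∈ s, {x | x ∈ R i ↔ ε i = true} := by
    ext x
    simp [cyl]
  rw [h]
  refine @MeasurableSet.biInter X J (MeasurableSpace.generateFrom (range R)) _ _
    s.countable_toSet ?_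
  intro i _
  have hR : MeasurableSet[MeasurableSpace.generateFrom (range R)] (R i) :=
    MeasurableSpace.measurableSet_generateFrom ⟨i, rfl⟩
  by_cases he : ε i = true
  · have : {x | x ∈ R i ↔ ε i = true} = R i := by
      ext x
      simp [he]
    rw [this]
    exact hR
  · have : {x | x ∈ R i ↔ ε i = true} = (R i)ᶜ := by
      ext x
      simp [he]
    rw [this]
    exact @MeasurableSet.compl X _ (MeasurableSpace.generateFrom (range R)) hR

theorem bound {J : Type} [LinearOrder J] (h1 : ∀ j : J, (Iio j).Countable)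
    (h2 : ¬ Countable J) (f : ℚ → J) : ∃ j, ∀ q, f q ≤ j := by
  by_contra hcon
  push Not at hcon
  apply h2
  have h3 : (⋃ q : ℚ, Iio (f q)) = univ := by
    refine eq_univ_of_forall fun j => ?_
    obtain ⟨q, hq⟩ := hcon j
    exact mem_iUnion.mpr ⟨q, hq⟩
  rw [← countable_univ_iff, ← h3]
  exact countable_iUnion fun q => h1 _

end AuxCI1

open AuxCI1 in
theorem pr_CI1 (h1 : S_Cyl) (h2 : S_Un) : S_CI1 := by
  intro X m0 μ hμ allM J _ _ hJ1 hJ2 R hHv C
  classical
  have hle : Mg R ≤ m0 := fun s _ => allM s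
  let f : X → ℝ := C.indicator (fun _ => (1 : ℝ))
  have hf : Integrable f μ := (integrable_const (1 : ℝ)).indicator (allM C)
  let g : X → ℝ := μ[f | Mg R]
  have hg : Measurable[Mg R] g :=
    (stronglyMeasurable_condExp (f := f) (m := Mg R) (μ := μ)).measurable
  have hgi : Integrable g μ := integrable_condExp
  have h3 : ∀ q : ℚ, ∃ j, MeasurableSet[Sg R j] {x | g x < (q : ℝ)} := by
    intro q
    exact h2 X J hJ1 hJ2 R _ (hg measurableSet_Iio)
  choose jq hjq using h3
  obtain ⟨j0, hj0⟩ := bound hJ1 hJ2 jq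
  refine ⟨j0, ?_⟩
  intro j hj E hE s ε hs
  have hm : Sg R j ≤ m0 := fun s _ => allM s
  have hgj : Measurable[Sg R j] g := by
    refine measurable_of_Iio (mδ := Sg R j) ?_
    intro a
    have h4 : g ⁻¹' Iio a = ⋃ q : ℚ, ⋃ _ : (q : ℝ) < a, {x | g x < (q : ℝ)} := by
      ext x
      simp only [mem_preimage, mem_Iio, mem_iUnion, mem_ofPred_eq, exists_prop]
      constructor
      · intro h
        obtain ⟨q, hq1, hq2⟩ := exists_rat_btwn h
        exact ⟨q, hq2, hq1⟩
      · rintro ⟨q, hq1, hq2⟩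
        exact hq2.trans hq1
    rw [h4]
    refine @MeasurableSet.iUnion X ℚ (Sg R j) _ _ fun q => ?_
    refine @MeasurableSet.iUnion X _ (Sg R j) _ _ fun _ => ?_
    exact Sg_mono R ((hj0 q).trans hj) _ (hjq q)
  have hgs : StronglyMeasurable[Sg R j] g := Measurable.stronglyMeasurable hgj
  set H : Set X := cyl R s ε with hH
  have hHM : MeasurableSet[Mg R] H := cyl_meas R s ε
  have hEM : MeasurableSet[Mg R] E := Sg_le R j _ hE
  -- integrals of f
  have hint : ∀ A : Set X, ∫ x in A, f x ∂μ = μ.real (C ∩ A) := by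
    intro A
    show ∫ x in A, C.indicator (fun _ => (1 : ℝ)) x ∂μ = _
    rw [integral_indicator (allM C), Measure.restrict_restrict (allM C)]
    simp
  have hA : ∀ A : Set X, MeasurableSet[Mg R] A → ∫ x in A, g x ∂μ = μ.real (C ∩ A) := by
    intro A hA
    rw [← hint A]
    exact setIntegral_condExp hle hf hA
  have hEH : MeasurableSet[Mg R] (E ∩ H) := @MeasurableSet.inter X (Mg R) _ _ hEM hHM
  -- equality of the measures
  have hmeas : ((2 : ENNReal) ^ s.card • μ.restrict H).trim hm = μ.trim hm := by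
    refine @Measure.ext X (Sg R j) _ _ fun A hA => ?_
    rw [trim_measurableSet_eq hm hA, trim_measurableSet_eq hm hA, Measure.smul_apply,
      Measure.restrict_apply (hm A hA), smul_eq_mul]
    exact h1 X μ allM J R hHv j A hA s ε hs
  have hfin : (2 : ENNReal) ^ s.card ≠ ⊤ := ENNReal.pow_ne_top (by simp)
  have hmain : (2 : ℝ) ^ s.card * ∫ x in E ∩ H, g x ∂μ = ∫ x in E, g x ∂μ := by
    have e1 : ∫ x in E, g x ∂μ = ∫ x in E, g x ∂(μ.trim hm) := setIntegral_trim hm hgs hE
    have e2 : ∫ x in E, g x ∂((2 : ENNReal) ^ s.card • μ.restrict H) =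
        ∫ x in E, g x ∂(((2 : ENNReal) ^ s.card • μ.restrict H).trim hm) :=
      setIntegral_trim hm hgs hE
    rw [e1, ← hmeas, ← e2, Measure.restrict_smul, integral_smul_measure,
      Measure.restrict_restrict (allM E)]
    simp
  rw [hA _ hEH, hA _ hEM] at hmain
  have h5 : ((2 : ENNReal) ^ s.card * μ (C ∩ E ∩ H)).toReal = (μ (C ∩ E)).toReal := by
    rw [ENNReal.toReal_mul, inter_assoc]
    simpa [Measure.real] using hmain
  exact (ENNReal.toReal_eq_toReal_iff' (ENNReal.mul_ne_top hfin (measure_ne_top μ _))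
    (measure_ne_top μ _)).mp h5

end Pool.Agent.Work.MP_da56a7_lc.B

end

section

set_option autoImplicit false

open MeasureTheory Set Filter

namespace Pool.Agent.Work.MP_da56a7_lc.B

namespace AuxCnt

theorem bern (M : ℝ) (hM : 1 ≤ M) (N : ℕ) : (N : ℝ) * (M - 1) ^ N ≤ M * M ^ N := by
  have hM0 : 0 < M := by linarith
  have h1 : 1 + (N : ℝ) * (1 / M) ≤ (1 + 1 / M) ^ N := by
    apply one_add_mul_le_pow
    have : 0 ≤ 1 / M := by positivity
    linarith
  have h2 : (M - 1) ^ N * (M + 1) ^ N ≤ (M ^ 2) ^ N := by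
    rw [← mul_pow]
    apply pow_le_pow_left₀
    · nlinarith
    · nlinarith
  have h3 : (M + 1) ^ N = M ^ N * (1 + 1 / M) ^ N := by
    rw [← mul_pow]
    congr 1
    field_simp
  have h4 : (M - 1) ^ N * (1 + 1 / M) ^ N ≤ M ^ N := by
    have h5 : M ^ N * ((M - 1) ^ N * (1 + 1 / M) ^ N) ≤ M ^ N * M ^ N := by
      calc M ^ N * ((M - 1) ^ N * (1 + 1 / M) ^ N) = (M - 1) ^ N * (M + 1) ^ N := by
            rw [h3]; ring
        _ ≤ (M ^ 2) ^ N := h2
        _ = M ^ N * M ^ N := by rw [← pow_mul]; ring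
    exact le_of_mul_le_mul_left h5 (by positivity)
  have h6 : 0 ≤ (M - 1) ^ N := pow_nonneg (by linarith) _
  have h7 : (M - 1) ^ N * (1 + (N : ℝ) * (1 / M)) ≤ M ^ N :=
    (mul_le_mul_of_nonneg_left h1 h6).trans h4
  have h8 : (M - 1) ^ N * ((N : ℝ) * (1 / M)) ≤ M ^ N := by
    have : (M - 1) ^ N * (1 + (N : ℝ) * (1 / M)) =
      (M - 1) ^ N + (M - 1) ^ N * ((N : ℝ) * (1 / M)) := by ring
    linarith
  calc (N : ℝ) * (M - 1) ^ N = M * ((M - 1) ^ N * ((N : ℝ) * (1 / M))) := by field_simp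
    _ ≤ M * M ^ N := mul_le_mul_of_nonneg_left h8 hM0.le

theorem claim (I X : Type) [LinearOrder I] [MeasurableSpace X] (μ : Measure X)
    [IsProbabilityMeasure μ] (allM : ∀ s : Set X, MeasurableSet s) (b : I → ℕ → Set X) (γ : I)
    (E : Set X)
    (hI : ∀ (s : Finset (I × ℕ)) (ε : I × ℕ → Bool), (∀ p ∈ s, γ ≤ p.1) →
      2 ^ s.card * μ.real (E ∩ cylb b s ε) = μ.real E)
    (α : I) (Fn : Finset I) (hγα : γ ≤ α) (hFn : ∀ β ∈ Fn, γ ≤ β ∧ β < α) (K : Finset ℕ) :
    ∀ (s : Finset (I × ℕ)) (ε : I × ℕ → Bool), (∀ p ∈ s, γ ≤ p.1 ∧ p.2 ∉ K) →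
    2 ^ s.card * (2 ^ (Fn.card + 1)) ^ K.card *
      μ.real (E ∩ cylb b s ε ∩ {x | ∀ k ∈ K, ¬ (x ∈ b α k ∧ ∀ β ∈ Fn, x ∉ b β k)}) =
      (2 ^ (Fn.card + 1) - 1) ^ K.card * μ.real E := by
  classical
  induction K using Finset.induction_on with
  | empty =>
    intro s ε hs
    have h := hI s ε (fun p hp => (hs p hp).1)
    simp only [Finset.card_empty, pow_zero, mul_one, Finset.notMem_empty, false_implies,
      implies_true, ofPred_true, inter_univ, one_mul]
    exact h
  | insert k K hk ih =>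
    intro s ε hs
    have hs1 : ∀ p ∈ s, γ ≤ p.1 ∧ p.2 ∉ K := fun p hp =>
      ⟨(hs p hp).1, fun hh => (hs p hp).2 (Finset.mem_insert_of_mem hh)⟩
    have hsk : ∀ p ∈ s, p.2 ≠ k := fun p hp hh =>
      (hs p hp).2 (hh ▸ Finset.mem_insert_self _ _)
    set sk : Finset (I × ℕ) := (insert α Fn) ×ˢ {k} with hskdef
    set ε' : I × ℕ → Bool := fun p => if p.2 = k then decide (p.1 = α) else ε p with hε'
    set Bd : Set X := {x | ∀ k ∈ K, ¬ (x ∈ b α k ∧ ∀ β ∈ Fn, x ∉ b β k)} with hBd
    set T : Set X := {x | x ∈ b α k ∧ ∀ β ∈ Fn, x ∉ b β k} with hT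
    have hαFn : α ∉ Fn := fun hh => lt_irrefl _ (hFn α hh).2
    have hcardsk : sk.card = Fn.card + 1 := by
      rw [hskdef, Finset.card_product, Finset.card_insert_of_notMem hαFn, Finset.card_singleton,
        mul_one]
    have hdisj : Disjoint s sk := by
      rw [Finset.disjoint_left]
      intro p hp hp'
      rw [hskdef, Finset.mem_product, Finset.mem_singleton] at hp'
      exact hsk p hp hp'.2
    have hcard : (s ∪ sk).card = s.card + (Fn.card + 1) := by
      rw [Finset.card_union_of_disjoint hdisj, hcardsk]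
    have heq1 : E ∩ cylb b s ε ∩
        {x | ∀ k' ∈ insert k K, ¬ (x ∈ b α k' ∧ ∀ β ∈ Fn, x ∉ b β k')} =
        (E ∩ cylb b s ε ∩ Bd) \ T := by
      ext x
      simp only [mem_inter_iff, mem_ofPred_eq, Finset.mem_insert, Set.mem_sdiff, hBd, hT]
      constructor
      · rintro ⟨h1, h2⟩
        exact ⟨⟨h1, fun k' hk' => h2 k' (Or.inr hk')⟩, h2 k (Or.inl rfl)⟩
      · rintro ⟨⟨h1, h2⟩, h3⟩
        refine ⟨h1, ?_⟩
        rintro k' (rfl | hk')
        · exact h3
        · exact h2 k' hk'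
    have heq2 : (E ∩ cylb b s ε ∩ Bd) ∩ T = E ∩ cylb b (s ∪ sk) ε' ∩ Bd := by
      have hcyl : cylb b s ε ∩ T = cylb b (s ∪ sk) ε' := by
        ext x
        constructor
        · rintro ⟨h1, h2, h3⟩ p hp
          rcases Finset.mem_union.1 hp with hp | hp
          · have := h1 p hp
            rw [hε']
            simp only [if_neg (hsk p hp)]
            exact this
          · rw [hskdef, Finset.mem_product, Finset.mem_singleton] at hp
            obtain ⟨hp1, hp2⟩ := hp
            rw [hε']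
            simp only [if_pos hp2, decide_eq_true_eq]
            rcases Finset.mem_insert.1 hp1 with hp1 | hp1
            · rw [hp1, hp2]
              exact ⟨fun _ => rfl, fun _ => h2⟩
            · rw [hp2]
              constructor
              · intro hh
                exact absurd hh (h3 _ hp1)
              · intro hh
                exact absurd hh (ne_of_lt (hFn _ hp1).2)
        · intro h
          refine ⟨?_, ?_, ?_⟩
          · intro p hp
            have := h p (Finset.mem_union_left _ hp)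
            rw [hε'] at this
            simp only [if_neg (hsk p hp)] at this
            exact this
          · have := h (α, k) (Finset.mem_union_right _ (by
              rw [hskdef, Finset.mem_product]
              exact ⟨Finset.mem_insert_self _ _, Finset.mem_singleton_self _⟩))
            rw [hε'] at this
            simpa using this
          · intro β hβ hh
            have := h (β, k) (Finset.mem_union_right _ (by
              rw [hskdef, Finset.mem_product]
              exact ⟨Finset.mem_insert_of_mem hβ, Finset.mem_singleton_self _⟩))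
            rw [hε'] at this
            simp only [if_true, decide_eq_true_eq] at this
            exact ne_of_lt (hFn _ hβ).2 (this.1 hh)
      rw [← hcyl]
      ext x
      simp only [mem_inter_iff]
      tauto
    have hA := ih s ε hs1
    have hB := ih (s ∪ sk) ε' (by
      intro p hp
      rcases Finset.mem_union.1 hp with hp | hp
      · exact hs1 p hp
      · rw [hskdef, Finset.mem_product, Finset.mem_singleton] at hp
        refine ⟨?_, ?_⟩
        · rcases Finset.mem_insert.1 hp.1 with hp1 | hp1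
          · rw [hp1]; exact hγα
          · exact (hFn _ hp1).1
        · rw [hp.2]; exact hk)
    have hsplit : μ.real ((E ∩ cylb b s ε ∩ Bd) ∩ T) + μ.real ((E ∩ cylb b s ε ∩ Bd) \ T) =
        μ.real (E ∩ cylb b s ε ∩ Bd) := measureReal_inter_add_sdiff (allM _)
    rw [heq1, Finset.card_insert_of_notMem hk]
    rw [← heq2, hcard] at hB
    set a := μ.real ((E ∩ cylb b s ε ∩ Bd) ∩ T)
    set c := μ.real ((E ∩ cylb b s ε ∩ Bd) \ T)
    set d := μ.real (E ∩ cylb b s ε ∩ Bd)
    have hc : c = d - a := by linarith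
    rw [hc]
    set M : ℝ := 2 ^ (Fn.card + 1) with hM
    have hB' : 2 ^ s.card * M * M ^ K.card * a = (M - 1) ^ K.card * μ.real E := by
      rw [← hB, pow_add]
    calc 2 ^ s.card * M ^ (K.card + 1) * (d - a) =
        M * (2 ^ s.card * M ^ K.card * d) - (2 ^ s.card * M * M ^ K.card * a) := by ring
      _ = M * ((M - 1) ^ K.card * μ.real E) - (M - 1) ^ K.card * μ.real E := by rw [hA, hB']
      _ = (M - 1) ^ (K.card + 1) * μ.real E := by ring

end AuxCnt

theorem pr_Cnt : S_Cnt := by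
  classical
  intro I X _ _ μ _ allM b γ E hE α Fn hγα hFn K
  have hI : ∀ (s : Finset (I × ℕ)) (ε : I × ℕ → Bool), (∀ p ∈ s, γ ≤ p.1) →
      2 ^ s.card * μ.real (E ∩ cylb b s ε) = μ.real E := by
    intro s ε hs
    have h := congrArg ENNReal.toReal (hE s ε hs)
    rw [ENNReal.toReal_mul, ENNReal.toReal_pow] at h
    simpa [measureReal_def] using h
  have h := AuxCnt.claim I X μ allM b γ E hI α Fn hγα hFn K ∅ (fun _ => true)
    (fun p hp => absurd hp (Finset.notMem_empty _))
  have hc : cylb b ∅ (fun _ => true) = (univ : Set X) := by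
    ext x; simp [cylb]
  rw [hc, inter_univ, Finset.card_empty, pow_zero, one_mul] at h
  set V := E ∩ {x | ∀ k ∈ K, ¬ (x ∈ b α k ∧ ∀ β ∈ Fn, x ∉ b β k)}
  have hM1 : (1 : ℝ) ≤ 2 ^ (Fn.card + 1) := one_le_pow₀ (by norm_num)
  have hM0 : (0 : ℝ) < 2 ^ (Fn.card + 1) := by positivity
  have hreal : (K.card : ℝ) * μ.real V ≤ 2 ^ (Fn.card + 1) * μ.real E := by
    have hb := AuxCnt.bern (2 ^ (Fn.card + 1)) hM1 K.card
    have hpos : (0 : ℝ) < (2 ^ (Fn.card + 1)) ^ K.card := by positivity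
    have h5 : (2 ^ (Fn.card + 1)) ^ K.card * ((K.card : ℝ) * μ.real V) ≤
        (2 ^ (Fn.card + 1)) ^ K.card * (2 ^ (Fn.card + 1) * μ.real E) := by
      calc (2 ^ (Fn.card + 1)) ^ K.card * ((K.card : ℝ) * μ.real V) =
          (K.card : ℝ) * ((2 ^ (Fn.card + 1)) ^ K.card * μ.real V) := by ring
        _ = ((K.card : ℝ) * (2 ^ (Fn.card + 1) - 1) ^ K.card) * μ.real E := by rw [h]; ring
        _ ≤ (2 ^ (Fn.card + 1) * (2 ^ (Fn.card + 1)) ^ K.card) * μ.real E :=
            mul_le_mul_of_nonneg_right hb measureReal_nonneg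
        _ = (2 ^ (Fn.card + 1)) ^ K.card * (2 ^ (Fn.card + 1) * μ.real E) := by ring
    exact le_of_mul_le_mul_left h5 hpos
  have hf1 : (K.card : ENNReal) * μ V ≠ ⊤ :=
    ENNReal.mul_ne_top (ENNReal.natCast_ne_top _) (measure_ne_top _ _)
  have hf2 : (2 : ENNReal) ^ (Fn.card + 1) * μ E ≠ ⊤ :=
    ENNReal.mul_ne_top (ENNReal.pow_ne_top (by norm_num)) (measure_ne_top _ _)
  rw [← ENNReal.toReal_le_toReal hf1 hf2, ENNReal.toReal_mul, ENNReal.toReal_mul,
    ENNReal.toReal_pow]
  simpa [measureReal_def] using hreal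

end Pool.Agent.Work.MP_da56a7_lc.B

end

section

set_option autoImplicit false

/-!
# MP_da56a7_lc, block B: cylinders
-/

open MeasureTheory Set Filter

namespace Pool.Agent.Work.MP_da56a7_lc.B

namespace AuxCyl

theorem Sg_mono {X J : Type} [LinearOrder J] (R : J → Set X) {i j : J} (h : i ≤ j) :
    Sg R i ≤ Sg R j :=
  MeasurableSpace.generateFrom_mono (fun _ ⟨l, hl, e⟩ => ⟨l, lt_of_lt_of_le hl h, e⟩)

theorem meas_cyl {X J : Type} [LinearOrder J] (R : J → Set X) (ε : J → Bool) (a : J)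
    (s : Finset J) (hs : ∀ i ∈ s, i < a) : MeasurableSet[Sg R a] (cyl R s ε) := by
  have e : cyl R s ε = ⋂ i ∈ s, {x | x ∈ R i ↔ ε i = true} := by
    ext x
    simp [cyl]
  rw [e]
  refine @Finset.measurableSet_biInter _ _ (Sg R a) _ s (fun i hi => ?_)
  have h1 : MeasurableSet[Sg R a] (R i) :=
    MeasurableSpace.measurableSet_generateFrom ⟨i, hs i hi, rfl⟩
  rcases Bool.eq_false_or_eq_true (ε i) with h | h
  · have : {x | x ∈ R i ↔ ε i = true} = R i := by
      ext x
      simp [h]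
    rw [this]
    exact h1
  · have : {x | x ∈ R i ↔ ε i = true} = (R i)ᶜ := by
      ext x
      simp [h]
    rw [this]
    exact h1.compl

end AuxCyl

open AuxCyl in
theorem pr_Cyl : S_Cyl := by
  intro X _ μ _ allM J _ R hv j E hE s ε
  induction s using Finset.induction_on_max with
  | empty =>
    intro _
    simp [cyl]
  | insert a s hmax ih =>
    intro hs
    have ih' := ih (fun i hi => hs i (Finset.mem_insert_of_mem hi))
    have ha : a ∉ s := fun h => lt_irrefl a (hmax a h)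
    have hja : j ≤ a := hs a (Finset.mem_insert_self a s)
    have hE' : MeasurableSet[Sg R a] (E ∩ cyl R s ε) :=
      MeasurableSet.inter (Sg_mono R hja E hE) (meas_cyl R ε a s hmax)
    have h2 : 2 * μ (R a ∩ (E ∩ cyl R s ε)) = μ (E ∩ cyl R s ε) := hv a _ hE'
    rw [Finset.card_insert_of_notMem ha, pow_succ, mul_assoc]
    have key : 2 * μ (E ∩ cyl R (insert a s) ε) = μ (E ∩ cyl R s ε) := by
      rcases Bool.eq_false_or_eq_true (ε a) with h | h
      · have e : E ∩ cyl R (insert a s) ε = R a ∩ (E ∩ cyl R s ε) := by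
          ext x
          simp only [cyl, mem_inter_iff, mem_ofPred_eq, Finset.forall_mem_insert, h, iff_true]
          tauto
        rw [e, h2]
      · have e : E ∩ cyl R (insert a s) ε = (E ∩ cyl R s ε) \ R a := by
          ext x
          simp only [cyl, mem_inter_iff, mem_ofPred_eq, Finset.forall_mem_insert, h, Set.mem_sdiff,
            Bool.false_eq_true, iff_false]
          tauto
        rw [e]
        have h3 := measure_inter_add_sdiff (μ := μ) (E ∩ cyl R s ε) (allM (R a))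
        rw [inter_comm (E ∩ cyl R s ε) (R a)] at h3
        have hfin : μ (R a ∩ (E ∩ cyl R s ε)) ≠ ⊤ := measure_ne_top μ _
        have h4 : μ ((E ∩ cyl R s ε) \ R a) = μ (R a ∩ (E ∩ cyl R s ε)) := by
          have h5 : μ (R a ∩ (E ∩ cyl R s ε)) + μ ((E ∩ cyl R s ε) \ R a) =
              μ (R a ∩ (E ∩ cyl R s ε)) + μ (R a ∩ (E ∩ cyl R s ε)) := by
            rw [h3, ← h2, two_mul]
          exact (ENNReal.add_right_inj hfin).1 h5
        rw [h4, h2]
    rw [key, ih']

end Pool.Agent.Work.MP_da56a7_lc.B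

end

section

set_option autoImplicit false

/-! Item `Exh`: exhaustion. -/

open MeasureTheory Set Filter

namespace Pool.Agent.Work.MP_da56a7_lc.B

namespace AuxExh

open scoped ENNReal

def Good {X : Type} [MeasurableSpace X] (μ : Measure X) (f : X → Y) (c : Set X) : Prop :=
  ∀ B : Set Y, MeasurableSet B → 2 * μ (c ∩ f ⁻¹' B) ≤ μ (f ⁻¹' B)

noncomputable def sp {X : Type} [MeasurableSpace X] (μ : Measure X) (f : X → Y) (c : Set X) :
    ℝ≥0∞ := ⨆ c'' : Set X, ⨆ _ : Good μ f c'' ∧ c ⊆ c'', μ c''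

lemma le_sp {X : Type} [MeasurableSpace X] (μ : Measure X) (f : X → Y) (c c'' : Set X)
    (h : Good μ f c'' ∧ c ⊆ c'') : μ c'' ≤ sp μ f c :=
  le_iSup₂ (f := fun (c'' : Set X) (_ : Good μ f c'' ∧ c ⊆ c'') => μ c'') c'' h

lemma step {X : Type} [MeasurableSpace X] (μ : Measure X) [IsFiniteMeasure μ] (f : X → Y)
    (c : Set X) (ε : ℝ≥0∞) (hε : ε ≠ 0) (hc : Good μ f c) :
    ∃ c' : Set X, Good μ f c' ∧ c ⊆ c' ∧ sp μ f c ≤ μ c' + ε := by
  by_contra h
  push Not at h
  have h0 : μ c + ε < sp μ f c := h c hc le_rfl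
  have hne : sp μ f c ≠ 0 := (lt_of_le_of_lt bot_le h0).ne'
  have htop : sp μ f c ≠ ⊤ := by
    refine ne_top_of_le_ne_top (measure_ne_top μ univ) ?_
    exact iSup₂_le fun c' _ => measure_mono (subset_univ _)
  have h1 : sp μ f c ≤ sp μ f c - ε :=
    iSup₂_le fun c' hc' => ENNReal.le_sub_of_add_le_right
      (ne_top_of_le_ne_top htop (le_trans le_add_self h0.le)) (h c' hc'.1 hc'.2).le
  exact absurd (ENNReal.sub_lt_self htop hne hε) (not_lt.mpr h1)

end AuxExh

open AuxExh in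
theorem pr_Exh : S_Exh := by
  intro X _ μ _ hM f
  have hg0 : Good μ f ∅ := by
    intro B _
    simp
  have hε : ∀ n : ℕ, ((2 : ENNReal)⁻¹ ^ n) ≠ 0 := fun n => pow_ne_zero _ (by simp)
  choose! nx hn1 hn2 hn3 using fun (c : Set X) (n : ℕ) (hc : Good μ f c) =>
    step μ f c ((2 : ENNReal)⁻¹ ^ n) (hε n) hc
  let s : ℕ → Set X := fun n => Nat.rec ∅ (fun n c => nx c n) n
  have hs : ∀ n, s (n + 1) = nx (s n) n := fun n => rfl
  have hgood : ∀ n, Good μ f (s n) := by
    intro n
    induction n with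
    | zero => exact hg0
    | succ n ih => rw [hs]; exact hn1 _ _ ih
  have hsub : ∀ n, s n ⊆ s (n + 1) := fun n => by rw [hs]; exact hn2 _ _ (hgood n)
  have hmono : Monotone s := monotone_nat_of_le_succ hsub
  have hsp : ∀ n, sp μ f (s n) ≤ μ (s (n + 1)) + (2 : ENNReal)⁻¹ ^ n := fun n => by
    rw [hs]; exact hn3 _ _ (hgood n)
  refine ⟨⋃ n, s n, ?_, ?_⟩
  · intro B hB
    have hm2 : Monotone fun n => s n ∩ f ⁻¹' B := fun a b h => inter_subset_inter_left _ (hmono h)
    rw [iUnion_inter, hm2.measure_iUnion, ENNReal.mul_iSup]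
    exact iSup_le fun n => hgood n B hB
  · intro c' hd hg
    have hle : ∀ n : ℕ, μ c' ≤ (2 : ENNReal)⁻¹ ^ n := by
      intro n
      have h1 : μ (⋃ n, s n) + μ c' = μ ((⋃ n, s n) ∪ c') := (measure_union hd (hM _)).symm
      have h2 : μ ((⋃ n, s n) ∪ c') ≤ sp μ f (s n) :=
        le_sp μ f _ _ ⟨hg, (subset_iUnion s n).trans subset_union_left⟩
      have h3 : μ (s (n + 1)) ≤ μ (⋃ n, s n) := measure_mono (subset_iUnion s (n + 1))
      have h4 : μ (⋃ n, s n) + μ c' ≤ μ (⋃ n, s n) + (2 : ENNReal)⁻¹ ^ n := by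
        rw [h1]
        exact h2.trans ((hsp n).trans (add_le_add_left h3 _))
      exact (ENNReal.add_le_add_iff_left (measure_ne_top μ _)).1 h4
    have ht : Tendsto (fun n : ℕ => (2 : ENNReal)⁻¹ ^ n) atTop (nhds 0) :=
      ENNReal.tendsto_pow_atTop_nhds_zero_of_lt_one (by simp)
    exact le_antisymm (ge_of_tendsto' ht hle) bot_le

end Pool.Agent.Work.MP_da56a7_lc.B

end

section

set_option autoImplicit false
set_option linter.style.haveILetI false

/-!
# MP_da56a7_lc, block B: the theorem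
-/

open MeasureTheory Set Filter

namespace Pool.Agent.Work.MP_da56a7_lc.B

namespace AuxFin

/-- a long well order with countable initial segments -/
theorem exI : ∃ (I : Type) (_ : LinearOrder I) (_ : WellFoundedLT I),
    Cardinal.mk I = Cardinal.aleph 1 ∧ ∀ i : I, (Iio i).Countable := by
  refine ⟨(Cardinal.aleph 1).ord.ToType, inferInstance, inferInstance, ?_, ?_⟩
  · exact Cardinal.mk_ord_toType _
  · intro i
    have h : Cardinal.mk (Iio i) < Cardinal.aleph 1 := by
      simpa using Cardinal.mk_Iio_lt i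
    have h' : Cardinal.mk (Iio i) < Order.succ Cardinal.aleph0 := by
      rw [Cardinal.succ_aleph0]; exact h
    exact Cardinal.le_aleph0_iff_set_countable.1 (Order.lt_succ_iff.1 h')

end AuxFin

theorem pr_Fin (h1 : S_Bits) (h2 : S_Ulam) (h3 : S_Rec) (h4 : S_AD) (h5 : S_Dom) (h6 : S_Esc)
    (h7 : S_Tail) (h8 : S_Main) (h9 : S_Unc) : S_Fin := by
  intro X _ μ hT hc
  by_cases hB : ∀ F : Set (ℕ → ℕ), Cardinal.mk F ≤ Cardinal.aleph 1 →
      ∃ g : ℕ → ℕ, ∀ f ∈ F, ∀ᶠ n in atTop, f n ≤ g n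
  · exact Or.inr hB
  left
  push Not at hB
  obtain ⟨F, hF, hF2⟩ := hB
  obtain ⟨I, _, _, hI, hIc⟩ := AuxFin.exI
  have hInc : ¬ Countable I := by
    intro h
    have h' := Cardinal.mk_le_aleph0_iff.2 h
    rw [hI] at h'
    exact absurd h' (not_le.2 Cardinal.aleph0_lt_aleph_one)
  -- the surjection
  have hFne : F.Nonempty := by
    obtain ⟨f, hf, -⟩ := hF2 (fun _ => 0)
    exact ⟨f, hf⟩
  obtain ⟨h, hh⟩ : ∃ h : I → ℕ → ℕ, ∀ f ∈ F, ∃ α, h α = f := by
    haveI : Nonempty F := hFne.to_subtype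
    have h1 : Nonempty (F ↪ I) := by
      rw [← Cardinal.le_def, hI]
      exact hF
    obtain ⟨emb⟩ := h1
    refine ⟨fun α => (Function.invFun emb α : F).1, ?_⟩
    intro f hf
    refine ⟨emb ⟨f, hf⟩, ?_⟩
    change (Function.invFun emb (emb ⟨f, hf⟩) : F).1 = f
    rw [Function.leftInverse_invFun emb.injective]
  have hunb : ∀ Φ : ℕ → ℕ, ∃ α, ∃ᶠ n in atTop, Φ n < h α n := by
    intro Φ
    obtain ⟨f, hf, hf2⟩ := hF2 Φ
    obtain ⟨α, hα⟩ := hh f hf
    refine ⟨α, ?_⟩
    rw [hα]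
    exact hf2
  -- enumerations
  have hex : ∀ α : I, ∃ e : I → ℕ, InjOn e (Iio α) := fun α => Set.countable_iff_exists_injOn.1 (hIc α)
  choose e he using hex
  obtain ⟨g, hg1, hg2, hg3⟩ := h5 I hIc h e he
  have hesc : ∀ (γ : I) (φ : ℕ → ℕ), ∃ α, γ ≤ α ∧ ∃ᶠ n in atTop, φ (g α n) ≤ g α (n + 1) := by
    intro γ φ
    obtain ⟨α, hα⟩ := h6 {α : I // γ ≤ α} (fun α => g α) (fun α => hg1 α) (by
      intro Φ
      obtain ⟨α, hα, hα2⟩ := h7 I hIc h hunb γ Φ
      refine ⟨⟨α, hα⟩, hα2.mono ?_⟩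
      intro n hn
      exact lt_of_lt_of_le hn (hg2 α n)) φ
    exact ⟨α.1, α.2, hα⟩
  obtain ⟨b, hb⟩ := h1 X μ hT hc I hIc hInc
  obtain ⟨A, hA⟩ := h3 I X b e g
  haveI := hT.prob
  obtain ⟨x, hx⟩ := h8 I X μ hT.allM hIc b hb e g A he hg1 hg3 hesc hA
  obtain ⟨ad1, ad2, ad3⟩ := h4 I X b e g A hg1 hA
  -- the family
  set FF : Set (Set ℕ) := (range fun j : ℕ => {k | val k = j}) ∪
    {s | ∃ α, s = A α x ∧ s.Infinite} with hFF
  have hAD : IsAD FF := by
    refine ⟨?_, ?_, ?_⟩
    · refine Set.Infinite.mono subset_union_left ?_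
      apply Set.infinite_range_of_injective
      intro i j hij
      obtain ⟨k, hk⟩ := (ad3 i).nonempty
      have hk2 : k ∈ {k | val k = j} := by
        have : (fun j : ℕ => {k | val k = j}) i = {k | val k = j} := hij
        rw [← this]
        exact hk
      exact hk.symm.trans hk2
    · rintro s (⟨j, rfl⟩ | ⟨α, -, hs⟩)
      · exact ad3 j
      · exact hs
    · rintro s (⟨i, rfl⟩ | ⟨α, rfl, hs⟩) t (⟨j, rfl⟩ | ⟨β, rfl, ht⟩) hne
      · have : ({k | val k = i} ∩ {k | val k = j} : Set ℕ) = ∅ := by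
          ext k
          simp only [mem_inter_iff, mem_ofPred_eq, mem_empty_iff_false, iff_false, not_and]
          intro hi hj
          exact hne (by rw [← hi, ← hj])
        change ({k | val k = i} ∩ {k | val k = j} : Set ℕ).Finite
        rw [this]
        exact Set.finite_empty
      · rw [inter_comm]
        exact ad2 β x i
      · exact ad2 α x j
      · apply ad1
        rintro rfl
        exact hne rfl
  have hMax : IsMax FF := by
    intro s hs
    by_cases hj : ∃ j, (s ∩ {k | val k = j}).Infinite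
    · obtain ⟨j, hj⟩ := hj
      exact ⟨_, Or.inl ⟨j, rfl⟩, hj⟩
    · push Not at hj
      obtain ⟨α, hα⟩ := hx s hs (fun j => by
        have := hj j
        exact this)
      exact ⟨A α x, Or.inr ⟨α, rfl, hα.mono inter_subset_right⟩, hα⟩
  have hcard : Cardinal.mk FF ≤ Cardinal.aleph 1 := by
    refine (Cardinal.mk_union_le _ _).trans ?_
    have c1 : Cardinal.mk (range fun j : ℕ => {k | val k = j}) ≤ Cardinal.aleph 1 :=
      Cardinal.mk_range_le.trans (by
        rw [Cardinal.mk_nat]; exact Cardinal.aleph0_lt_aleph_one.le)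
    have c2 : Cardinal.mk {s | ∃ α, s = A α x ∧ s.Infinite} ≤ Cardinal.aleph 1 := by
      have c3 : {s | ∃ α, s = A α x ∧ s.Infinite} ⊆ range fun α => A α x := by
        rintro s ⟨α, rfl, -⟩
        exact ⟨α, rfl⟩
      refine (Cardinal.mk_le_mk_of_subset c3).trans ?_
      refine Cardinal.mk_range_le.trans ?_
      rw [hI]
    refine (add_le_add c1 c2).trans ?_
    rw [Cardinal.add_eq_self (Cardinal.aleph0_le_aleph 1)]
  have hlow : Cardinal.aleph 1 ≤ Cardinal.mk FF := by
    rw [← Cardinal.succ_aleph0, Order.succ_le_iff]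
    exact h9 FF hAD hMax
  have heq : Cardinal.mk FF = Cardinal.aleph 1 := le_antisymm hcard hlow
  refine ⟨FF, hAD, hMax, heq, ?_⟩
  rw [heq]
  exact h2 X μ hT

end Pool.Agent.Work.MP_da56a7_lc.B

end

section

set_option autoImplicit false

/-!
# A small part of a positive set is full
-/

open MeasureTheory Set Filter

namespace Pool.Agent.Work.MP_da56a7_lc.B

theorem pr_Full (h : S_JM) : S_Full := by
  intro X _ μ _ allM r hr f A hA
  by_contra hcon
  push Not at hcon
  choose C hC hpos hno using hcon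
  have hf : Measurable f := fun s _ => allM _
  set m : Measure Y := Measure.map f (μ.restrict A) with hm
  have hmC : ∀ D : Set Y, MeasurableSet D → m D = μ (A ∩ f ⁻¹' D) := by
    intro D hD
    rw [hm, Measure.map_apply hf hD, Measure.restrict_apply (allM _), inter_comm]
  have hF : ∀ d, ∃ F ⊆ C d, IsClosed F ∧ 0 < m F := by
    intro d
    apply (hC d).exists_lt_isClosed_of_ne_top (measure_ne_top m _)
    rw [hmC _ (hC d)]
    exact pos_iff_ne_zero.2 (hpos d)
  choose F hFC hFc hFm using hF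
  have hS : MeasurableSet {p : X × Y | p.2 ∈ F p.1} := by
    have h1 := (h X allM (fun d => (F d)ᶜ) (fun d => (hFc d).isOpen_compl)).compl
    convert h1 using 1
    ext p
    simp
  have e1 : (μ.prod m) {p : X × Y | p.2 ∈ F p.1} = ∫⁻ d, m (F d) ∂μ := Measure.prod_apply hS
  have e2 : (μ.prod m) {p : X × Y | p.2 ∈ F p.1} = ∫⁻ y, μ {d | y ∈ F d} ∂m :=
    Measure.prod_apply_symm hS
  have hφ : Measurable (fun y => μ {d | y ∈ F d}) := measurable_measure_prodMk_right hS
  have hne : ∫⁻ d, m (F d) ∂μ ≠ 0 := by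
    intro h0
    rw [lintegral_eq_zero_iff (fun s _ => allM _)] at h0
    have h1 : μ univ = 0 := by
      refine measure_mono_null ?_ (ae_iff.1 h0)
      intro d _ hd
      exact (hFm d).ne' hd
    exact hA (measure_mono_null (subset_univ A) h1)
  have hex : ∃ i ∈ A, μ {d | f i ∈ F d} ≠ 0 := by
    by_contra hall
    push Not at hall
    apply hne
    rw [← e1, e2, hm, lintegral_map hφ hf, lintegral_eq_zero_iff (fun s _ => allM _),
      EventuallyEq, ae_restrict_iff' (allM A)]
    exact Eventually.of_forall fun i hi => hall i hi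
  obtain ⟨i, hi, hi0⟩ := hex
  apply hi0
  refine measure_mono_null ?_ (hr i)
  intro d hd hrd
  exact hno d i hi hrd (hFC d hd)

end Pool.Agent.Work.MP_da56a7_lc.B

end

section

set_option autoImplicit false

/-!
# Half: sets of small conditional measure
-/

open MeasureTheory Set Filter

namespace Pool.Agent.Work.MP_da56a7_lc.B

namespace AuxHalf

theorem half1 {X : Type} [MeasurableSpace X] (μ : Measure X) [IsFiniteMeasure μ]
    (hall : ∀ s : Set X, MeasurableSet s) (f : X → Y) (hf : NoRep μ f) (a : Set X)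
    (ha : μ a ≠ 0) : ∃ c, c ⊆ a ∧ μ c ≠ 0 ∧
      ∀ B : Set Y, MeasurableSet B → 2 * μ (c ∩ f ⁻¹' B) ≤ μ (a ∩ f ⁻¹' B) := by
  have hfm : Measurable f := fun s _ => hall _
  obtain ⟨a', ha', hrep⟩ := hf a ha
  set m1 : Measure Y := Measure.map f (μ.restrict a') with hm1
  set m2 : Measure Y := Measure.map f (μ.restrict (a \ a')) with hm2
  have h1 : ∀ C, MeasurableSet C → m1 C = μ (a' ∩ f ⁻¹' C) := by
    intro C hC
    rw [hm1, Measure.map_apply hfm hC, Measure.restrict_apply (hfm hC), inter_comm]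
  have h2 : ∀ C, MeasurableSet C → m2 C = μ ((a \ a') ∩ f ⁻¹' C) := by
    intro C hC
    rw [hm2, Measure.map_apply hfm hC, Measure.restrict_apply (hfm hC), inter_comm]
  have : IsFiniteMeasure m1 := Measure.isFiniteMeasure_map _ _
  have : IsFiniteMeasure m2 := Measure.isFiniteMeasure_map _ _
  obtain ⟨B0, hB0, hin, hout⟩ := hahn_decomposition m2 m1
  refine ⟨(a' ∩ f ⁻¹' B0) ∪ ((a \ a') ∩ f ⁻¹' B0ᶜ), ?_, ?_, ?_⟩
  · rintro x (hx | hx)
    · exact ha' hx.1
    · exact hx.1.1
  · intro h0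
    have h01 : μ (a' ∩ f ⁻¹' B0) = 0 := measure_mono_null subset_union_left h0
    have h02 : μ ((a \ a') ∩ f ⁻¹' B0ᶜ) = 0 := measure_mono_null subset_union_right h0
    apply hrep
    refine ⟨B0ᶜ, hB0.compl, ?_⟩
    refine measure_mono_null ?_ (measure_union_null h01 h02)
    rintro x (⟨hx, hx2⟩ | ⟨⟨hx, hx2⟩, hx3⟩)
    · left
      refine ⟨hx, ?_⟩
      by_contra hc
      exact hx2 ⟨ha' hx, hc⟩
    · right
      exact ⟨⟨hx, hx3⟩, hx2⟩
  · intro B hB
    have e1 : μ (((a' ∩ f ⁻¹' B0) ∪ ((a \ a') ∩ f ⁻¹' B0ᶜ)) ∩ f ⁻¹' B) ≤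
        m1 (B ∩ B0) + m2 (B ∩ B0ᶜ) := by
      rw [h1 _ (hB.inter hB0), h2 _ (hB.inter hB0.compl)]
      refine (measure_mono ?_).trans (measure_union_le _ _)
      rintro x ⟨hx | hx, hxB⟩
      · left
        exact ⟨hx.1, hxB, hx.2⟩
      · right
        exact ⟨hx.1, hxB, hx.2⟩
    have e2 : μ (a ∩ f ⁻¹' B) = m1 B + m2 B := by
      rw [h1 _ hB, h2 _ hB, ← measure_inter_add_sdiff (a ∩ f ⁻¹' B) (hall a')]
      congr 1
      · congr 1
        ext x
        constructor
        · rintro ⟨⟨_, h⟩, h'⟩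
          exact ⟨h', h⟩
        · rintro ⟨h', h⟩
          exact ⟨⟨ha' h', h⟩, h'⟩
      · congr 1
        ext x
        constructor
        · rintro ⟨⟨h3, h⟩, h'⟩
          exact ⟨⟨h3, h'⟩, h⟩
        · rintro ⟨⟨h3, h'⟩, h⟩
          exact ⟨⟨h3, h⟩, h'⟩
    have e3 : m1 B = m1 (B ∩ B0) + m1 (B ∩ B0ᶜ) := by
      rw [← measure_inter_add_sdiff B hB0, sdiff_eq]
    have e4 : m2 B = m2 (B ∩ B0) + m2 (B ∩ B0ᶜ) := by
      rw [← measure_inter_add_sdiff B hB0, sdiff_eq]
    have e5 := hin (B ∩ B0) (hB.inter hB0) inter_subset_right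
    have e6 := hout (B ∩ B0ᶜ) (hB.inter hB0.compl) inter_subset_right
    rw [e2, e3, e4]
    calc 2 * μ (((a' ∩ f ⁻¹' B0) ∪ ((a \ a') ∩ f ⁻¹' B0ᶜ)) ∩ f ⁻¹' B)
        ≤ 2 * (m1 (B ∩ B0) + m2 (B ∩ B0ᶜ)) := by gcongr
      _ = (m1 (B ∩ B0) + m2 (B ∩ B0ᶜ)) + (m1 (B ∩ B0) + m2 (B ∩ B0ᶜ)) := by ring
      _ ≤ (m1 (B ∩ B0) + m1 (B ∩ B0ᶜ)) + (m2 (B ∩ B0) + m2 (B ∩ B0ᶜ)) := by
        have : (m1 (B ∩ B0) + m2 (B ∩ B0ᶜ)) + (m1 (B ∩ B0) + m2 (B ∩ B0ᶜ)) ≤
            (m1 (B ∩ B0) + m1 (B ∩ B0ᶜ)) + (m2 (B ∩ B0) + m2 (B ∩ B0ᶜ)) := by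
          gcongr
        exact this

end AuxHalf

open AuxHalf in
theorem pr_Half : S_Half := by
  intro X _ μ _ hall f hf a ha k
  induction k with
  | zero =>
    refine ⟨a, Subset.rfl, ha, fun B _ => ?_⟩
    simp
  | succ k ih =>
    obtain ⟨c, hca, hc0, hc⟩ := ih
    obtain ⟨c', hcc, hc'0, hc'⟩ := half1 μ hall f hf c hc0
    refine ⟨c', hcc.trans hca, hc'0, fun B hB => ?_⟩
    calc 2 ^ (k + 1) * μ (c' ∩ f ⁻¹' B) = 2 ^ k * (2 * μ (c' ∩ f ⁻¹' B)) := by ring
      _ ≤ 2 ^ k * μ (c ∩ f ⁻¹' B) := by gcongr; exact hc' B hB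
      _ ≤ μ (a ∩ f ⁻¹' B) := hc B hB

end Pool.Agent.Work.MP_da56a7_lc.B

end

section

set_option autoImplicit false

/-!
# Joint measurability of families of open sets
-/

open MeasureTheory Set Filter

namespace Pool.Agent.Work.MP_da56a7_lc.B

theorem pr_JM : S_JM := by
  intro X _ allM G hG
  have h : {p : X × Y | p.2 ∈ G p.1} =
      ⋃ U ∈ TopologicalSpace.countableBasis Y, {z | U ⊆ G z} ×ˢ U := by
    ext ⟨z, y⟩
    simp only [mem_setOf_eq, mem_iUnion, mem_prod, exists_prop]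
    constructor
    · intro hy
      obtain ⟨U, hU, hyU, hUG⟩ :=
        (TopologicalSpace.isBasis_countableBasis Y).exists_subset_of_mem_open hy (hG z)
      exact ⟨U, hU, hUG, hyU⟩
    · rintro ⟨U, -, hUG, hyU⟩
      exact hUG hyU
  rw [h]
  refine MeasurableSet.biUnion (TopologicalSpace.countable_countableBasis Y) fun U hU => ?_
  exact (allM _).prod (TopologicalSpace.isOpen_of_mem_countableBasis hU).measurableSet

end Pool.Agent.Work.MP_da56a7_lc.B

end

section

set_option autoImplicit false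

/-!
# MP_da56a7_lc, block B, item KM: measurability of the sets of good points
-/

open MeasureTheory Set Filter

namespace Pool.Agent.Work.MP_da56a7_lc.B

namespace AuxKM

theorem mem_meas {I X : Type} [LinearOrder I] [MeasurableSpace X]
    (hcnt : ∀ i : I, (Iio i).Countable) (A : I → X → Set ℕ) (γ : I)
    (hA : ∀ β k, β < γ → MeasurableSet {x | k ∈ A β x}) (Z : X → Set ℕ)
    (hZ : ∀ l, MeasurableSet {x | l ∈ Z x}) (e : I → ℕ) (u v k : ℕ) :
    MeasurableSet {x | k ∈ Ks (fun β => A β x) e (Z x) γ u v} := by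
  classical
  have hc : ∀ p : Prop, MeasurableSet {_x : X | p} := fun p => MeasurableSet.const p
  have h1 : {x | k ∈ Ks (fun β => A β x) e (Z x) γ u v} =
      {x | k ∈ Z x} ∩ ({_x | u ≤ k} ∩ ({_x | k < v} ∩ ⋂ l : ℕ, ({_x | ¬ k ≤ l} ∪
        ({x | l ∈ Z x}ᶜ ∪ ({_x | u < val l} ∩ ⋂ β ∈ Iio γ,
          ({_x | ¬ e β ≤ u} ∪ {x | l ∈ A β x}ᶜ)))))) := by
    ext x
    simp only [Ks, mem_ofPred_eq, mem_inter_iff, mem_iInter, mem_union, mem_compl_iff, mem_Iio]
    refine and_congr_right fun _ => and_congr_right fun _ => and_congr_right fun _ =>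
      forall_congr' fun l => ?_
    constructor
    · intro h
      by_cases h2 : k ≤ l
      · by_cases h3 : l ∈ Z x
        · obtain ⟨h4, h5⟩ := h h2 h3
          refine Or.inr (Or.inr ⟨h4, fun β hβ => ?_⟩)
          by_cases h6 : e β ≤ u
          · exact Or.inr (h5 β hβ h6)
          · exact Or.inl h6
        · exact Or.inr (Or.inl h3)
      · exact Or.inl h2
    · intro h h2 h3
      rcases h with h | h | h
      · exact absurd h2 h
      · exact absurd h3 h
      · refine ⟨h.1, fun β hβ h6 => ?_⟩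
        rcases h.2 β hβ with h7 | h7
        · exact absurd h6 h7
        · exact h7
  rw [h1]
  refine (hZ k).inter ((hc _).inter ((hc _).inter (MeasurableSet.iInter fun l =>
    (hc _).union ((hZ l).compl.union ((hc _).inter ?_)))))
  exact MeasurableSet.biInter (hcnt γ) fun β hβ => (hc _).union (hA β l hβ).compl

theorem km {I X : Type} [LinearOrder I] [MeasurableSpace X]
    (hcnt : ∀ i : I, (Iio i).Countable) (A : I → X → Set ℕ) (γ : I)
    (hA : ∀ β k, β < γ → MeasurableSet {x | k ∈ A β x}) (Z : X → Set ℕ)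
    (hZ : ∀ l, MeasurableSet {x | l ∈ Z x}) (e : I → ℕ) (u v : ℕ) (K : Finset ℕ) :
    MeasurableSet {x | Ks (fun β => A β x) e (Z x) γ u v = (K : Set ℕ)} := by
  classical
  have h1 : {x | Ks (fun β => A β x) e (Z x) γ u v = (K : Set ℕ)} =
      ⋂ k : ℕ, (if k ∈ K then {x | k ∈ Ks (fun β => A β x) e (Z x) γ u v} else
        {x | k ∈ Ks (fun β => A β x) e (Z x) γ u v}ᶜ) := by
    ext x
    rw [mem_iInter]
    constructor
    · intro h k
      have h2 : Ks (fun β => A β x) e (Z x) γ u v = (K : Set ℕ) := h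
      by_cases hk : k ∈ K
      · rw [if_pos hk]
        change k ∈ Ks (fun β => A β x) e (Z x) γ u v
        rw [h2]; exact hk
      · rw [if_neg hk]
        change ¬ k ∈ Ks (fun β => A β x) e (Z x) γ u v
        rw [h2]; exact hk
    · intro h
      change Ks (fun β => A β x) e (Z x) γ u v = (K : Set ℕ)
      ext k
      have h2 := h k
      by_cases hk : k ∈ K
      · rw [if_pos hk] at h2
        exact ⟨fun _ => hk, fun _ => h2⟩
      · rw [if_neg hk] at h2
        exact ⟨fun h3 => absurd h3 h2, fun h3 => absurd h3 hk⟩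
  rw [h1]
  refine MeasurableSet.iInter fun k => ?_
  by_cases hk : k ∈ K
  · rw [if_pos hk]; exact mem_meas hcnt A γ hA Z hZ e u v k
  · rw [if_neg hk]; exact (mem_meas hcnt A γ hA Z hZ e u v k).compl

end AuxKM

open AuxKM in
theorem pr_KM : S_KM := by
  classical
  intro I X _ hcnt b A γ hA e Z u v K
  refine @km I X _ (Gm b (chf Z) γ) hcnt A γ ?_ Z ?_ e u v K
  · intro β k hβ
    exact (le_sup_right : Sb b γ ≤ Gm b (chf Z) γ) _ (hA β k hβ)
  · intro l
    refine (le_sup_left : MeasurableSpace.comap (chf Z) inferInstance ≤ Gm b (chf Z) γ) _ ?_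
    refine ⟨{y : Y | y l = true}, ?_, ?_⟩
    · exact measurableSet_eq_fun (measurable_pi_apply l) measurable_const
    · ext x
      simp [chf]

end Pool.Agent.Work.MP_da56a7_lc.B

end

section

set_option autoImplicit false

open MeasureTheory Set Filter

namespace Pool.Agent.Work.MP_da56a7_lc.B

theorem pr_Lift : S_Lift := by
  classical
  intro X _ μ f A hA G
  have h1 : ∀ n : ℕ, ∃ B : Set Y, MeasurableSet B ∧
      μ (({i | i ∈ A ∧ G i n = true} \ (A ∩ f ⁻¹' B)) ∪
        ((A ∩ f ⁻¹' B) \ {i | i ∈ A ∧ G i n = true})) = 0 :=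
    fun n => hA {i | i ∈ A ∧ G i n = true} (fun i hi => hi.1)
  choose B hBm hB0 using h1
  refine ⟨fun y n => decide (y ∈ B n), ?_, ?_⟩
  · refine measurable_pi_iff.2 fun n => ?_
    refine measurable_to_bool ?_
    have : (fun y : Y => decide (y ∈ B n)) ⁻¹' {true} = B n := by
      ext y
      simp
    rw [this]
    exact hBm n
  · refine measure_mono_null ?_ (measure_iUnion_null hB0)
    intro i hi
    obtain ⟨hiA, hne⟩ := hi
    obtain ⟨n, hn⟩ : ∃ n, G i n ≠ decide (f i ∈ B n) := by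
      by_contra hcon
      push Not at hcon
      exact hne (funext hcon)
    refine mem_iUnion.2 ⟨n, ?_⟩
    by_cases hg : G i n = true
    · left
      refine ⟨⟨hiA, hg⟩, fun h => hn ?_⟩
      have h2 : f i ∈ B n := h.2
      rw [hg]
      simp [h2]
    · right
      have hb : f i ∈ B n := by
        by_contra hb
        apply hn
        simp [hb, hg]
      exact ⟨⟨hiA, hb⟩, fun h => hg h.2⟩

end Pool.Agent.Work.MP_da56a7_lc.B

end

section

set_option autoImplicit false

/-!
# Item MX: maximal families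
-/

open MeasureTheory Set Filter

namespace Pool.Agent.Work.MP_da56a7_lc.B

namespace AuxMX

/-- the collection to which Zorn's lemma is applied -/
def Coll (m : Measure Y) (S T : Set Y) : Set (Set (Set Y × (Y → Y))) :=
  {Q | (∀ p ∈ Q, FnC m S T p.1 p.2) ∧
    ∀ p ∈ Q, ∀ p' ∈ Q, p ≠ p' → m {y | y ∈ p.1 ∧ y ∈ p'.1 ∧ p.2 y = p'.2 y} = 0}

theorem exists_max (m : Measure Y) (S T : Set Y) : ∃ Q, Maximal (· ∈ Coll m S T) Q := by
  refine zorn_subset (Coll m S T) ?_
  intro c hc hch
  refine ⟨⋃₀ c, ⟨?_, ?_⟩, fun s hs => subset_sUnion_of_mem hs⟩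
  · rintro p ⟨s, hs, hp⟩
    exact (hc hs).1 p hp
  · rintro p ⟨s, hs, hp⟩ p' ⟨s', hs', hp'⟩ hne
    rcases hch.total hs hs' with h | h
    · exact (hc hs').2 p (h hp) p' hp' hne
    · exact (hc hs).2 p hp p' (h hp') hne

end AuxMX

open AuxMX in
theorem pr_MX : S_MX := by
  intro m _ S T
  obtain ⟨Q, hQ⟩ := exists_max m S T
  refine ⟨Q, hQ.prop.1, hQ.prop.2, ?_⟩
  intro q hq hfull
  set E : (Set Y × (Y → Y)) → Set Y := fun p => {y | y ∈ p.1 ∧ p.2 y = q y} with hEdef
  have hE : ∀ p ∈ Q, MeasurableSet (E p) := by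
    intro p hp
    have h1 := hQ.prop.1 p hp
    exact h1.mB.inter (measurableSet_eq_fun h1.mq hq)
  have hcount : {p : Q | 0 < m (E p)}.Countable := by
    refine Measure.countable_meas_pos_of_disjoint_iUnion₀ (As := fun p : Q => E p)
      (fun p => (hE p p.2).nullMeasurableSet) ?_
    intro p p' hne
    show m (E p ∩ E p') = 0
    refine measure_mono_null ?_ (hQ.prop.2 p p.2 p' p'.2 (fun h => hne (Subtype.ext h)))
    rintro y ⟨h1, h2⟩
    exact ⟨h1.1, h2.1, h1.2.trans h2.2.symm⟩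
  set U : Set Y := ⋃ p ∈ {p : Q | 0 < m (E p)}, E p with hU
  have hUm : MeasurableSet U := MeasurableSet.biUnion hcount (fun p _ => hE p p.2)
  have hmemU : ∀ p ∈ Q, 0 < m (E p) → E p ⊆ U := by
    intro p hp hpos y hy
    rw [hU]
    simp only [mem_iUnion]
    exact ⟨⟨p, hp⟩, hpos, hy⟩
  by_cases h0 : m Uᶜ = 0
  · rw [ae_iff]
    refine measure_mono_null ?_ h0
    intro y hy hyU
    rw [hU] at hyU
    simp only [mem_iUnion] at hyU
    obtain ⟨p, _, hyp⟩ := hyU
    exact hy ⟨p, p.2, hyp.1, hyp.2⟩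
  · exfalso
    have hFn : FnC m S T Uᶜ q := ⟨hUm.compl, hq, h0, fun C hC _ hC0 => hfull C hC hC0⟩
    have hdis : ∀ p ∈ Q, m {y | y ∈ Uᶜ ∧ y ∈ p.1 ∧ q y = p.2 y} = 0 := by
      intro p hp
      by_cases hpos : 0 < m (E p)
      · have h1 : {y | y ∈ Uᶜ ∧ y ∈ p.1 ∧ q y = p.2 y} = ∅ := by
          rw [Set.eq_empty_iff_forall_notMem]
          rintro y ⟨h2, h3, h4⟩
          exact h2 (hmemU p hp hpos ⟨h3, h4.symm⟩)
        rw [h1, measure_empty]
      · refine measure_mono_null ?_ (nonpos_iff_eq_zero.mp (not_lt.mp hpos))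
        rintro y ⟨h2, h3, h4⟩
        exact ⟨h3, h4.symm⟩
    by_cases hin : ((Uᶜ, q) : Set Y × (Y → Y)) ∈ Q
    · have h1 : E (Uᶜ, q) = Uᶜ := by
        ext y
        exact ⟨fun h => h.1, fun h => ⟨h, rfl⟩⟩
      have h2 : 0 < m (E (Uᶜ, q)) := by
        rw [h1]
        exact pos_iff_ne_zero.mpr h0
      have h3 := hmemU _ hin h2
      rw [h1] at h3
      obtain ⟨y, hy⟩ := nonempty_of_measure_ne_zero h0
      exact hy (h3 hy)
    · have h1 : insert ((Uᶜ, q) : Set Y × (Y → Y)) Q ∈ Coll m S T := by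
        refine ⟨?_, ?_⟩
        · intro p hp
          rcases hp with rfl | hp
          · exact hFn
          · exact hQ.prop.1 p hp
        · intro p hp p' hp' hne
          rcases hp with rfl | hp
          · rcases hp' with rfl | hp'
            · exact absurd rfl hne
            · exact hdis p' hp'
          · rcases hp' with rfl | hp'
            · refine measure_mono_null ?_ (hdis p hp)
              rintro y ⟨h2, h3, h4⟩
              exact ⟨h3, h2, h4.symm⟩
            · exact hQ.prop.2 p hp p' hp' hne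
      have h2 := hQ.le_of_ge h1 (subset_insert _ _)
      exact hin (h2 (mem_insert _ _))

end Pool.Agent.Work.MP_da56a7_lc.B

end

section

set_option autoImplicit false

open MeasureTheory Set Filter

namespace Pool.Agent.Work.MP_da56a7_lc.B

theorem pr_MeasA : S_MeasA := by
  intro I X _ _ hI b e g A hs γ β
  induction β using WellFoundedLT.induction with
  | ind β ih =>
    intro k hβ
    have hset : {x | k ∈ A β x} = b β k ∩ {x | Nf (g β) k < val k} ∩
        ⋂ β' ∈ {β' | β' < β ∧ e β β' ≤ Nf (g β) k}, {x | k ∈ A β' x}ᶜ := by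
      ext x
      simp only [Set.mem_setOf_eq, Set.mem_inter_iff, Set.mem_iInter, Set.mem_compl_iff]
      rw [hs β x k]
      constructor
      · rintro ⟨h1, h2, h3⟩
        exact ⟨⟨h1, h2⟩, fun β' h => h3 β' h.1 h.2⟩
      · rintro ⟨⟨h1, h2⟩, h3⟩
        exact ⟨h1, h2, fun β' h h' => h3 β' ⟨h, h'⟩⟩
    rw [hset]
    have hc : ({β' | β' < β ∧ e β β' ≤ Nf (g β) k} : Set I).Countable :=
      (hI β).mono (fun β' h => h.1)
    refine @MeasurableSet.inter X (Sb b γ) _ _ (@MeasurableSet.inter X (Sb b γ) _ _ ?_ ?_) ?_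
    · exact MeasurableSpace.measurableSet_generateFrom ⟨β, hβ, k, rfl⟩
    · exact @MeasurableSet.const X (Sb b γ) _
    · refine @MeasurableSet.biInter X I (Sb b γ) _ _ hc ?_
      intro β' h
      exact @MeasurableSet.compl X _ (Sb b γ) (ih β' h.1 k (h.1.trans hβ))

end Pool.Agent.Work.MP_da56a7_lc.B

end

section

set_option autoImplicit false

/-!
# NS: nowhere countable type
-/

open MeasureTheory Set Filter

namespace Pool.Agent.Work.MP_da56a7_lc.B

theorem pr_NS (h1 : S_Small) (h2 : S_Full) (h3 : S_QQ) (h4 : S_Lift) (h5 : S_WO) : S_NS := by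
  classical
  intro X _ μ hT hc f A hA
  by_contra hcon
  push Not at hcon
  have := hT.prob
  have hf : Measurable f := fun s _ => hT.allM _
  obtain ⟨hs1, hs2⟩ := h1 X μ hT
  obtain ⟨r, hr1, hr2, hr3⟩ := h5 X μ hT
  have hY : Cardinal.mk Y = Cardinal.continuum := by
    simp [Y]
  obtain ⟨e⟩ : Nonempty (X ↪ Y) := by
    rw [← hY] at hc
    exact hc
  set m : Measure Y := Measure.map f (μ.restrict A) with hm
  have hmC : ∀ C, MeasurableSet C → m C = μ (A ∩ f ⁻¹' C) := by
    intro C hC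
    rw [hm, Measure.map_apply hf hC, Measure.restrict_apply (hf hC), inter_comm]
  have : IsFiniteMeasure m := Measure.isFiniteMeasure_map _ _
  have hQ : ∀ d d' : X, ∃ Q : Set (Y → Y), Cardinal.mk Q < Cardinal.mk X ∧
      ∀ q : Y → Y, Measurable q → FullC m (f '' {i | r i d}) (e '' {i | r i d'}) q →
      ∀ᵐ y ∂m, ∃ p ∈ Q, p y = q y := by
    intro d d'
    exact h3 X μ hT m _ _ (Cardinal.mk_image_le.trans_lt (hr1 d))
      (Cardinal.mk_image_le.trans_lt (hr1 d'))
  choose Q hQ1 hQ2 using hQ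
  -- the forbidden values
  have hBad : ∀ i : X, μ (⋃ p : ({d | r d i} × {d | r d i} : Type),
      {j | ∃ q ∈ Q p.1.1 p.2.1, e j = q (f i)}) = 0 := by
    intro i
    apply hs2
    · rw [Cardinal.mk_prod, Cardinal.lift_id]
      exact Cardinal.mul_lt_of_lt hT.unc.le (hr1 i) (hr1 i)
    · intro p
      have hsub : {j | ∃ q ∈ Q p.1.1 p.2.1, e j = q (f i)} =
          e ⁻¹' ((fun q : Y → Y => q (f i)) '' Q p.1.1 p.2.1) := by
        ext j
        simp only [mem_ofPred_eq, mem_preimage, mem_image]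
        constructor
        · rintro ⟨q, hq, h⟩
          exact ⟨q, hq, h.symm⟩
        · rintro ⟨q, hq, h⟩
          exact ⟨q, hq, h.symm⟩
      rw [hsub]
      exact ((Cardinal.mk_preimage_of_injective _ _ e.injective).trans
        Cardinal.mk_image_le).trans_lt (hQ1 _ _)
  have hg : ∀ i : X, ∃ j : X, ∀ d d', r d i → r d' i → ∀ q ∈ Q d d', e j ≠ q (f i) := by
    intro i
    by_contra hc2
    push Not at hc2
    have : (⋃ p : ({d | r d i} × {d | r d i} : Type),
      {j | ∃ q ∈ Q p.1.1 p.2.1, e j = q (f i)}) = univ := by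
      rw [eq_univ_iff_forall]
      intro j
      obtain ⟨d, d', hd, hd', q, hq, he⟩ := hc2 j
      exact mem_iUnion.2 ⟨(⟨d, hd⟩, ⟨d', hd'⟩), q, hq, he⟩
    have h0 := hBad i
    rw [this, measure_univ] at h0
    exact one_ne_zero h0
  choose g hg using hg
  obtain ⟨q, hq, hq0⟩ := h4 X μ f A hcon (fun i => e (g i))
  set A0 : Set X := {i | i ∈ A ∧ e (g i) = q (f i)} with hA0
  have hsplit : ∀ s : Set X, μ (A ∩ s) = μ (A0 ∩ s) := by
    intro s
    apply le_antisymm
    · have : A ∩ s ⊆ (A0 ∩ s) ∪ {i | i ∈ A ∧ e (g i) ≠ q (f i)} := by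
        rintro i ⟨hi, hs⟩
        by_cases h : e (g i) = q (f i)
        · exact Or.inl ⟨⟨hi, h⟩, hs⟩
        · exact Or.inr ⟨hi, h⟩
      calc μ (A ∩ s) ≤ μ ((A0 ∩ s) ∪ {i | i ∈ A ∧ e (g i) ≠ q (f i)}) := measure_mono this
        _ ≤ μ (A0 ∩ s) + μ {i | i ∈ A ∧ e (g i) ≠ q (f i)} := measure_union_le _ _
        _ = μ (A0 ∩ s) := by rw [hq0, add_zero]
    · exact measure_mono (inter_subset_inter_left _ fun i hi => hi.1)
  have hA0pos : μ A0 ≠ 0 := by
    have := hsplit univ
    rw [inter_univ, inter_univ] at this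
    rw [← this]
    exact hA
  obtain ⟨d, hd⟩ := h2 X μ hT.allM r (fun i => hs1 _ (hr2 i)) f A0 hA0pos
  obtain ⟨d', hd'⟩ := hr3 (g '' {i | r i d}) (Cardinal.mk_image_le.trans_lt (hr1 d))
  have hfull : FullC m (f '' {i | r i d}) (e '' {i | r i d'}) q := by
    intro C hC hmC0
    rw [hmC C hC, hsplit] at hmC0
    obtain ⟨i, hi, hri, hfi⟩ := hd C hC hmC0
    refine ⟨f i, ⟨i, hri, rfl⟩, hfi, g i, hd' _ ⟨i, hri, rfl⟩, hi.2⟩
  have hae := hQ2 d d' q hq hfull
  have hae2 : ∀ᵐ i ∂(μ.restrict A), ∃ p ∈ Q d d', p (f i) = q (f i) :=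
    ae_of_ae_map hf.aemeasurable hae
  rw [ae_restrict_iff' (hT.allM A)] at hae2
  have h3' : ∀ᵐ i ∂μ, r d i := by
    rw [ae_iff]
    exact hs1 _ (hr2 d)
  have h4' : ∀ᵐ i ∂μ, r d' i := by
    rw [ae_iff]
    exact hs1 _ (hr2 d')
  have hnot : ∀ᵐ i ∂μ, i ∉ A0 := by
    filter_upwards [hae2, h3', h4'] with i hi1 hi2 hi3 hi0
    obtain ⟨p, hp, hpe⟩ := hi1 hi0.1
    apply hg i d d' hi2 hi3 p hp
    rw [hi0.2, hpe]
  apply hA0pos
  rw [ae_iff] at hnot
  simpa using hnot

end Pool.Agent.Work.MP_da56a7_lc.B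

end

section

set_option autoImplicit false

open MeasureTheory Set Filter

namespace Pool.Agent.Work.MP_da56a7_lc.B

/-- a small set of functions covers all of them -/
theorem pr_QQ (h1 : S_QS) (h2 : S_MX) : S_QQ := by
  intro X _ μ hT m _ S T hS hTT
  obtain ⟨Q', hF, hP, hC⟩ := h2 m S T
  have hlt : Cardinal.mk Q' < Cardinal.mk X := by
    by_contra hge
    rw [not_lt, Cardinal.le_def] at hge
    obtain ⟨ι⟩ := hge
    obtain ⟨z, z', hne, hm⟩ := h1 X μ hT m S T hS hTT (fun z => (ι z).1.1)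
      (fun z => (ι z).1.2) (fun z => hF _ (ι z).2)
    refine hm (hP _ (ι z).2 _ (ι z').2 ?_)
    intro he
    exact hne (ι.injective (Subtype.ext he))
  refine ⟨Prod.snd '' Q', lt_of_le_of_lt Cardinal.mk_image_le hlt, ?_⟩
  intro q hq hfull
  filter_upwards [hC q hq hfull] with y hy
  obtain ⟨p, hp, _, hpq⟩ := hy
  exact ⟨p.2, ⟨p, hp, rfl⟩, hpq⟩

end Pool.Agent.Work.MP_da56a7_lc.B

end

section

/-!
# MP_da56a7_lc, block B, item Tail: tails of unbounded families are unbounded
-/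

set_option autoImplicit false

open MeasureTheory Set Filter

namespace Pool.Agent.Work.MP_da56a7_lc.B

theorem pr_Tail : S_Tail := by
  intro I _ hI h hu γ Φ
  by_contra hno
  have h1 : ∀ α, γ ≤ α → ∀ᶠ n in atTop, h α n ≤ Φ n := by
    intro α hα
    have h2 : ¬ ∃ᶠ n in atTop, Φ n < h α n := fun hf => hno ⟨α, hα, hf⟩
    rw [Filter.not_frequently] at h2
    exact h2.mono fun n hn => not_lt.1 hn
  obtain ⟨Ψ, hΨ⟩ : ∃ Ψ : ℕ → ℕ, ∀ α, α < γ → ∀ᶠ n in atTop, h α n ≤ Ψ n := by
    rcases (Iio γ).eq_empty_or_nonempty with he | hne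
    · refine ⟨fun _ => 0, fun α hα => ?_⟩
      have h2 : α ∈ Iio γ := hα
      rw [he] at h2
      exact absurd h2 (Set.notMem_empty α)
    · obtain ⟨c, hc⟩ := (hI γ).exists_eq_range hne
      refine ⟨fun n => ∑ i ∈ Finset.range (n + 1), h (c i) n, fun α hα => ?_⟩
      have h2 : α ∈ range c := by
        rw [← hc]
        exact hα
      obtain ⟨i, rfl⟩ := h2
      filter_upwards [eventually_ge_atTop i] with n hn
      exact Finset.single_le_sum (f := fun i => h (c i) n) (fun _ _ => Nat.zero_le _)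
        (Finset.mem_range.2 (by omega))
  obtain ⟨α, hα⟩ := hu (fun n => Φ n + Ψ n)
  apply hα
  rcases lt_or_ge α γ with h2 | h2
  · filter_upwards [hΨ α h2] with n hn
    omega
  · filter_upwards [h1 α h2] with n hn
    omega

end Pool.Agent.Work.MP_da56a7_lc.B

end

section

set_option autoImplicit false

/-!
# MP_da56a7_lc, block B: there are many good points
-/

open MeasureTheory Set Filter

namespace Pool.Agent.Work.MP_da56a7_lc.B

theorem pr_Thr : S_Thr := by
  intro I _ A e Z γ he hZ hA hv u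
  have hB : {β | β < γ ∧ e β ≤ u}.Finite := by
    refine Set.Finite.of_finite_image (f := e) ((Set.finite_Iic u).subset ?_) ?_
    · rintro _ ⟨β, ⟨-, hβ⟩, rfl⟩
      exact hβ
    · exact he.mono fun β hβ => hβ.1
  have hW : ((⋃ β ∈ {β | β < γ ∧ e β ≤ u}, Z ∩ A β) ∪
      (⋃ j ∈ Iic u, Z ∩ {k | val k = j}) : Set ℕ).Finite := by
    apply Set.Finite.union
    · exact hB.biUnion fun β hβ => hA β hβ.1
    · exact (Set.finite_Iic u).biUnion fun j _ => hv j
  obtain ⟨L, hL⟩ := hW.bddAbove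
  have hgood : ∀ l ∈ Z, L < l → u < val l ∧ ∀ β, β < γ → e β ≤ u → l ∉ A β := by
    intro l hl hLl
    constructor
    · by_contra hcon
      have : l ≤ L := hL (Or.inr (Set.mem_biUnion (x := val l) (not_lt.1 hcon) ⟨hl, rfl⟩))
      omega
    · intro β hβ heβ hlA
      have : l ≤ L := hL (Or.inl (Set.mem_biUnion (x := β) ⟨hβ, heβ⟩ ⟨hl, hlA⟩))
      omega
  have hinf : (Z \ Iic (max u L)).Infinite := hZ.sdiff (Set.finite_Iic _)
  obtain ⟨t, ht1, ht2⟩ := hinf.exists_subset_card_eq (4 ^ u)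
  refine ⟨t.sup id + 1, ?_⟩
  rw [← ht2, ← Set.ncard_coe_finset]
  apply Set.ncard_le_ncard
  · intro k hk
    obtain ⟨hkZ, hk2⟩ := ht1 hk
    have hk3 : max u L < k := not_le.1 hk2
    refine ⟨hkZ, ((le_max_left u L).trans hk3.le), ?_, ?_⟩
    · exact Nat.lt_succ_of_le (Finset.le_sup (f := id) hk)
    · intro l hkl hl
      exact hgood l hl (lt_of_lt_of_le (lt_of_le_of_lt (le_max_right u L) hk3) hkl)
  · refine (Set.finite_Iio (t.sup id + 1)).subset ?_
    rintro k ⟨-, -, hk, -⟩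
    exact hk

end Pool.Agent.Work.MP_da56a7_lc.B

end

section

set_option autoImplicit false

open MeasureTheory Set Filter

namespace Pool.Agent.Work.MP_da56a7_lc.B

namespace AuxUn

/-- countable sets are bounded -/
lemma bound {J : Type} [LinearOrder J] (hJ : ∀ j : J, (Iio j).Countable)
    (hn : ¬ Countable J) (S : Set J) (hS : S.Countable) : ∃ j, ∀ i ∈ S, i < j := by
  by_contra h
  push Not at h
  apply hn
  rw [← Set.countable_univ_iff]
  have hc : (⋃ i ∈ S, (Iio i ∪ {i}) : Set J).Countable :=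
    hS.biUnion (fun i _ => (hJ i).union (countable_singleton i))
  refine hc.mono (fun j _ => ?_)
  obtain ⟨i, hi, hij⟩ := h j
  simp only [mem_iUnion]
  refine ⟨i, hi, ?_⟩
  rcases hij.lt_or_eq with h1 | h1
  · exact Or.inl h1
  · exact Or.inr h1

lemma mono {X J : Type} [LinearOrder J] (R : J → Set X) {i j : J} (h : i ≤ j) :
    Sg R i ≤ Sg R j :=
  MeasurableSpace.generateFrom_mono (by
    rintro s ⟨k, hk, rfl⟩
    exact ⟨k, lt_of_lt_of_le hk h, rfl⟩)

end AuxUn

/-- the sigma-algebra generated by all the bits is the union of the smaller ones -/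
theorem pr_Un : S_Un := by
  intro X J _ _ hJ hn R E hE
  have hE' : MeasurableSpace.GenerateMeasurable (range R) E := hE
  clear hE
  induction hE' with
  | basic u hu =>
    obtain ⟨i, rfl⟩ := hu
    obtain ⟨j, hj⟩ := AuxUn.bound hJ hn {i} (countable_singleton i)
    exact ⟨j, MeasurableSpace.measurableSet_generateFrom ⟨i, hj i rfl, rfl⟩⟩
  | empty =>
    obtain ⟨j, _⟩ := AuxUn.bound hJ hn ∅ countable_empty
    exact ⟨j, @MeasurableSet.empty _ (Sg R j)⟩
  | compl s _ ih =>
    obtain ⟨j, hj⟩ := ih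
    exact ⟨j, @MeasurableSet.compl _ s (Sg R j) hj⟩
  | iUnion f _ ih =>
    choose jn hjn using ih
    obtain ⟨j, hj⟩ := AuxUn.bound hJ hn (range jn) (countable_range jn)
    refine ⟨j, @MeasurableSet.iUnion _ _ (Sg R j) _ f (fun n => ?_)⟩
    exact AuxUn.mono R (hj _ ⟨n, rfl⟩).le _ (hjn n)

end Pool.Agent.Work.MP_da56a7_lc.B

end

section

set_option autoImplicit false

open MeasureTheory Set Filter

namespace Pool.Agent.Work.MP_da56a7_lc.B

theorem pr_Unc : S_Unc := by
  intro A hA hmax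
  obtain ⟨hinf, hmem, had⟩ := hA
  by_contra hcon
  rw [not_lt, Cardinal.mk_le_aleph0_iff] at hcon
  have : Infinite A := hinf.to_subtype
  obtain ⟨e⟩ := nonempty_equiv_of_countable (α := ℕ) (β := A)
  have hT : ∀ n, ((e n : Set ℕ) \ ⋃ i ∈ Finset.range n, (e i : Set ℕ)).Infinite := by
    intro n
    have h1 : (⋃ i ∈ Finset.range n, ((e n : Set ℕ) ∩ (e i : Set ℕ))).Finite := by
      refine Set.Finite.biUnion (Finset.finite_toSet _) fun i hi => ?_
      refine had _ (e n).2 _ (e i).2 fun h => ?_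
      have h2 : n = i := e.injective (Subtype.ext h)
      have : i < n := Finset.mem_range.mp hi
      omega
    have h2 := (hmem _ (e n).2).sdiff h1
    refine h2.mono ?_
    rintro x ⟨hx1, hx2⟩
    refine ⟨hx1, fun hx3 => hx2 ?_⟩
    simp only [Set.mem_iUnion] at hx3 ⊢
    obtain ⟨i, hi, hx4⟩ := hx3
    exact ⟨i, hi, hx1, hx4⟩
  obtain ⟨k, hk, hkT⟩ := Filter.extraction_forall_of_frequently
    (P := fun n k => k ∈ ((e n : Set ℕ) \ ⋃ i ∈ Finset.range n, (e i : Set ℕ)))
    (fun n => Nat.frequently_atTop_iff_infinite.mpr (hT n))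
  obtain ⟨a, ha, hSa⟩ := hmax (Set.range k) (Set.infinite_range_of_injective hk.injective)
  obtain ⟨i, hi⟩ := e.surjective ⟨a, ha⟩
  apply hSa
  refine ((Set.finite_Iic i).image k).subset ?_
  rintro _ ⟨⟨n, rfl⟩, hn⟩
  refine ⟨n, ?_, rfl⟩
  rw [Set.mem_Iic]
  by_contra hni
  push Not at hni
  apply (hkT n).2
  simp only [Set.mem_iUnion]
  exact ⟨i, Finset.mem_range.mpr hni, by rw [hi]; exact hn⟩

end Pool.Agent.Work.MP_da56a7_lc.B

end

section

set_option autoImplicit false

/-!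
# A well order with small initial segments
-/

open MeasureTheory Set Filter

namespace Pool.Agent.Work.MP_da56a7_lc.B

theorem pr_WO (h : S_Small) : S_WO := by
  intro X _ μ hT
  obtain ⟨e⟩ : Nonempty (X ≃ (Cardinal.mk X).ord.ToType) :=
    Cardinal.eq.1 (Cardinal.mk_ord_toType (Cardinal.mk X)).symm
  have h1 : ∀ i : X, Cardinal.mk {j | e j < e i} < Cardinal.mk X := by
    intro i
    have h2 := Cardinal.mk_Iio_toType_ord_lt (e i)
    refine lt_of_le_of_lt ?_ h2
    refine Cardinal.mk_le_of_injective (f := fun j : {j | e j < e i} => (⟨e j.1, j.2⟩ : Iio (e i))) ?_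
    intro a b hab
    apply Subtype.ext
    exact e.injective (congrArg Subtype.val hab)
  have h2 : ∀ i : X, Cardinal.mk {j | ¬ e i < e j} < Cardinal.mk X := by
    intro i
    have h3 : {j | ¬ e i < e j} ⊆ {j | e j < e i} ∪ {i} := by
      intro j hj
      rcases lt_or_eq_of_le (not_lt.1 hj) with h4 | h4
      · exact Or.inl h4
      · exact Or.inr (e.injective h4)
    refine lt_of_le_of_lt (Cardinal.mk_le_mk_of_subset h3) ?_
    refine lt_of_le_of_lt (Cardinal.mk_union_le _ _) ?_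
    refine Cardinal.add_lt_of_lt hT.unc.le (h1 i) ?_
    rw [Cardinal.mk_singleton]
    exact Cardinal.one_lt_aleph0.trans hT.unc
  refine ⟨fun i j => e i < e j, h1, h2, ?_⟩
  intro s hs
  by_contra hcon
  push Not at hcon
  have h3 : μ (⋃ i : s, {j | ¬ e i.1 < e j}) = 0 :=
    (h X μ hT).2 s (fun i => {j | ¬ e i.1 < e j}) hs fun i => h2 i.1
  have h4 : (⋃ i : s, {j | ¬ e i.1 < e j}) = univ := by
    refine eq_univ_of_forall fun j => ?_
    obtain ⟨i, hi, hij⟩ := hcon j
    exact mem_iUnion.2 ⟨⟨i, hi⟩, not_lt.2 hij⟩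
  rw [h4] at h3
  have := hT.prob
  rw [measure_univ] at h3
  exact one_ne_zero h3

end Pool.Agent.Work.MP_da56a7_lc.B

end
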