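import Pool.Agent.Work.MP_da56a7_lc.B.Defs

/-! Bundle of small proof modules (one section per former module). -/

section

set_option autoImplicit false

/-!
# MP_da56a7_lc, block B: statements of the items

All items are independent; each takes some of the statements below as explicit hypotheses.
-/

open MeasureTheory Set Filter

namespace Pool.Agent.Work.MP_da56a7_lc.B

/-! ## Part 1: nowhere countable type -/

/-- small sets are null and do not cover -/
def S_Small : Prop := ∀ (X : Type) [MeasurableSpace X] (μ : Measure X), Tot X μ →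
  (∀ s : Set X, Cardinal.mk s < Cardinal.mk X → μ s = 0) ∧
  ∀ (ι : Type) (N : ι → Set X), Cardinal.mk ι < Cardinal.mk X →
    (∀ i, Cardinal.mk (N i) < Cardinal.mk X) → μ (⋃ i, N i) = 0

/-- joint measurability of families of open sets -/
def S_JM : Prop := ∀ (X : Type) [MeasurableSpace X], (∀ s : Set X, MeasurableSet s) →
  ∀ G : X → Set Y, (∀ z, IsOpen (G z)) → MeasurableSet {p : X × Y | p.2 ∈ G p.1}

/-- Kunen-Fubini -/
def S_KN : Prop := ∀ (X : Type) [MeasurableSpace X] (μ : Measure X) [IsFiniteMeasure μ],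
  (∀ s : Set X, MeasurableSet s) → ∀ (m : Measure Y) [IsFiniteMeasure m] (N : X → Set Y),
  μ {z | m (N z) ≠ 0} = 0 → m {y | μ {z | y ∈ N z} ≠ 0} = 0

/-- a small part of `A` is full -/
def S_Full : Prop := ∀ (X : Type) [MeasurableSpace X] (μ : Measure X) [IsFiniteMeasure μ],
  (∀ s : Set X, MeasurableSet s) → ∀ r : X → X → Prop, (∀ i, μ {j | ¬ r i j} = 0) →
  ∀ (f : X → Y) (A : Set X), μ A ≠ 0 →
  ∃ d, ∀ C : Set Y, MeasurableSet C → μ (A ∩ f ⁻¹' C) ≠ 0 → ∃ i ∈ A, r i d ∧ f i ∈ C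

/-- two members of a large family agree on a positive set -/
def S_QS : Prop := ∀ (X : Type) [MeasurableSpace X] (μ : Measure X), Tot X μ →
  ∀ (m : Measure Y) [IsFiniteMeasure m] (S T : Set Y), Cardinal.mk S < Cardinal.mk X →
  Cardinal.mk T < Cardinal.mk X → ∀ (B : X → Set Y) (q : X → Y → Y),
  (∀ z, FnC m S T (B z) (q z)) →
  ∃ z z', z ≠ z' ∧ m {y | y ∈ B z ∧ y ∈ B z' ∧ q z y = q z' y} ≠ 0

/-- maximal families -/
def S_MX : Prop := ∀ (m : Measure Y) [IsFiniteMeasure m] (S T : Set Y),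
  ∃ Q : Set (Set Y × (Y → Y)), (∀ p ∈ Q, FnC m S T p.1 p.2) ∧
    (∀ p ∈ Q, ∀ p' ∈ Q, p ≠ p' → m {y | y ∈ p.1 ∧ y ∈ p'.1 ∧ p.2 y = p'.2 y} = 0) ∧
    ∀ q : Y → Y, Measurable q → FullC m S T q → ∀ᵐ y ∂m, ∃ p ∈ Q, y ∈ p.1 ∧ p.2 y = q y

/-- a small set of functions covers all of them -/
def S_QQ : Prop := ∀ (X : Type) [MeasurableSpace X] (μ : Measure X), Tot X μ →
  ∀ (m : Measure Y) [IsFiniteMeasure m] (S T : Set Y), Cardinal.mk S < Cardinal.mk X →
  Cardinal.mk T < Cardinal.mk X → ∃ Q : Set (Y → Y), Cardinal.mk Q < Cardinal.mk X ∧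
    ∀ q : Y → Y, Measurable q → FullC m S T q → ∀ᵐ y ∂m, ∃ p ∈ Q, p y = q y

/-- all functions are Borel functions of `f` on `A` -/
def S_Lift : Prop := ∀ (X : Type) [MeasurableSpace X] (μ : Measure X) (f : X → Y) (A : Set X),
  (∀ A', A' ⊆ A → Rep μ f A A') →
  ∀ G : X → Y, ∃ q : Y → Y, Measurable q ∧ μ {i | i ∈ A ∧ G i ≠ q (f i)} = 0

/-- a well order with small initial segments -/
def S_WO : Prop := ∀ (X : Type) [MeasurableSpace X] (μ : Measure X), Tot X μ →
  ∃ r : X → X → Prop, (∀ i, Cardinal.mk {j | r j i} < Cardinal.mk X) ∧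
    (∀ i, Cardinal.mk {j | ¬ r i j} < Cardinal.mk X) ∧
    ∀ s : Set X, Cardinal.mk s < Cardinal.mk X → ∃ j, ∀ i ∈ s, r i j

/-- nowhere countable type -/
def S_NS : Prop := ∀ (X : Type) [MeasurableSpace X] (μ : Measure X), Tot X μ →
  Cardinal.mk X ≤ Cardinal.continuum → ∀ f : X → Y, NoRep μ f

/-! ## Part 2: independent bits -/

/-- sets of small conditional measure -/
def S_Half : Prop := ∀ (X : Type) [MeasurableSpace X] (μ : Measure X) [IsFiniteMeasure μ],
  (∀ s : Set X, MeasurableSet s) → ∀ f : X → Y, NoRep μ f → ∀ a : Set X, μ a ≠ 0 → ∀ k : ℕ,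
  ∃ c, c ⊆ a ∧ μ c ≠ 0 ∧
    ∀ B : Set Y, MeasurableSet B → 2 ^ k * μ (c ∩ f ⁻¹' B) ≤ μ (a ∩ f ⁻¹' B)

/-- exhaustion -/
def S_Exh : Prop := ∀ (X : Type) [MeasurableSpace X] (μ : Measure X) [IsFiniteMeasure μ],
  (∀ s : Set X, MeasurableSet s) → ∀ f : X → Y, ∃ c : Set X,
    (∀ B : Set Y, MeasurableSet B → 2 * μ (c ∩ f ⁻¹' B) ≤ μ (f ⁻¹' B)) ∧
    ∀ c' : Set X, Disjoint c c' →
      (∀ B : Set Y, MeasurableSet B → 2 * μ ((c ∪ c') ∩ f ⁻¹' B) ≤ μ (f ⁻¹' B)) → μ c' = 0

/-- a set independent of `f`, of measure one half -/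
def S_Bit : Prop := ∀ (X : Type) [MeasurableSpace X] (μ : Measure X) [IsFiniteMeasure μ],
  (∀ s : Set X, MeasurableSet s) → ∀ f : X → Y, NoRep μ f → ∃ R : Set X,
    ∀ B : Set Y, MeasurableSet B → 2 * μ (R ∩ f ⁻¹' B) = μ (f ⁻¹' B)

/-- a long sequence of bits -/
def S_Seq : Prop := ∀ (X : Type) [MeasurableSpace X] (μ : Measure X), Tot X μ →
  Cardinal.mk X ≤ Cardinal.continuum → ∀ (J : Type) [LinearOrder J] [WellFoundedLT J],
  (∀ j : J, (Iio j).Countable) → ∃ R : J → Set X, Hv μ R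

/-- cylinders -/
def S_Cyl : Prop := ∀ (X : Type) [MeasurableSpace X] (μ : Measure X) [IsProbabilityMeasure μ],
  (∀ s : Set X, MeasurableSet s) → ∀ (J : Type) [LinearOrder J] (R : J → Set X), Hv μ R →
  ∀ (j : J) (E : Set X), MeasurableSet[Sg R j] E → ∀ (s : Finset J) (ε : J → Bool),
  (∀ i ∈ s, j ≤ i) → 2 ^ s.card * μ (E ∩ cyl R s ε) = μ E

/-- the sigma-algebra generated by all the bits is the union of the smaller ones -/
def S_Un : Prop := ∀ (X J : Type) [LinearOrder J] [WellFoundedLT J],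
  (∀ j : J, (Iio j).Countable) → ¬ Countable J → ∀ (R : J → Set X) (E : Set X),
  MeasurableSet[MeasurableSpace.generateFrom (range R)] E → ∃ j, MeasurableSet[Sg R j] E

/-- every set is independent of the bits from some place on -/
def S_CI1 : Prop := ∀ (X : Type) [MeasurableSpace X] (μ : Measure X) [IsProbabilityMeasure μ],
  (∀ s : Set X, MeasurableSet s) → ∀ (J : Type) [LinearOrder J] [WellFoundedLT J],
  (∀ j : J, (Iio j).Countable) → ¬ Countable J → ∀ R : J → Set X, Hv μ R → ∀ C : Set X,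
  ∃ j₀ : J, ∀ j, j₀ ≤ j → ∀ E : Set X, MeasurableSet[Sg R j] E →
    ∀ (s : Finset J) (ε : J → Bool), (∀ i ∈ s, j ≤ i) →
      2 ^ s.card * μ (C ∩ E ∩ cyl R s ε) = μ (C ∩ E)

/-- every function is independent of the bits from some place on -/
def S_CI : Prop := ∀ (X : Type) [MeasurableSpace X] (μ : Measure X) [IsProbabilityMeasure μ],
  (∀ s : Set X, MeasurableSet s) → ∀ (J : Type) [LinearOrder J] [WellFoundedLT J],
  (∀ j : J, (Iio j).Countable) → ¬ Countable J → ∀ R : J → Set X, Hv μ R → ∀ F : X → Y,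
  ∃ j₀ : J, ∀ j, j₀ ≤ j → ∀ E : Set X,
    MeasurableSet[MeasurableSpace.comap F inferInstance ⊔ Sg R j] E →
    ∀ (s : Finset J) (ε : J → Bool), (∀ i ∈ s, j ≤ i) → 2 ^ s.card * μ (E ∩ cyl R s ε) = μ E

/-- the bits -/
def S_Bits : Prop := ∀ (X : Type) [MeasurableSpace X] (μ : Measure X), Tot X μ →
  Cardinal.mk X ≤ Cardinal.continuum → ∀ (I : Type) [LinearOrder I] [WellFoundedLT I],
  (∀ i : I, (Iio i).Countable) → ¬ Countable I → ∃ b : I → ℕ → Set X, Bits μ b

/-- Ulam -/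
def S_Ulam : Prop := ∀ (X : Type) [MeasurableSpace X] (μ : Measure X), Tot X μ →
  Cardinal.aleph 1 < Cardinal.mk X

/-! ## Part 3: the family -/

/-- the recursion -/
def S_Rec : Prop := ∀ (I X : Type) [LinearOrder I] [WellFoundedLT I] (b : I → ℕ → Set X)
  (e : I → I → ℕ) (g : I → ℕ → ℕ), ∃ A : I → X → Set ℕ, IsSys b e g A

/-- properties of `Nf` -/
def S_Nf : Prop := ∀ u : ℕ → ℕ, StrictMono u →
  (∀ n k, u n ≤ k → k < u (n + 1) → Nf u k = n) ∧ ∀ m k, Nf u k < m → k < u m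

/-- almost disjointness -/
def S_AD : Prop := ∀ (I X : Type) [LinearOrder I] (b : I → ℕ → Set X) (e : I → I → ℕ)
  (g : I → ℕ → ℕ) (A : I → X → Set ℕ), (∀ α, StrictMono (g α)) → IsSys b e g A →
  (∀ α β x, β ≠ α → (A α x ∩ A β x).Finite) ∧
  (∀ α x j, (A α x ∩ {k | val k = j}).Finite) ∧ ∀ j, {k | val k = j}.Infinite

/-- fast functions -/
def S_Dom : Prop := ∀ (I : Type) [LinearOrder I], (∀ i : I, (Iio i).Countable) →
  ∀ (h : I → ℕ → ℕ) (e : I → I → ℕ), (∀ α, InjOn (e α) (Iio α)) →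
  ∃ g : I → ℕ → ℕ, (∀ α, StrictMono (g α)) ∧ (∀ α n, h α n ≤ g α n) ∧
    ∀ α γ, γ ≤ α → ∀ᶠ n in atTop, ∀ β, β < γ → e α β ≤ n → e γ β ≤ g α n

/-- unbounded families escape -/
def S_Esc : Prop := ∀ (K : Type) (g : K → ℕ → ℕ), (∀ α, StrictMono (g α)) →
  (∀ Φ : ℕ → ℕ, ∃ α, ∃ᶠ n in atTop, Φ n < g α n) →
  ∀ φ : ℕ → ℕ, ∃ α, ∃ᶠ n in atTop, φ (g α n) ≤ g α (n + 1)

/-- tails of unbounded families are unbounded -/
def S_Tail : Prop := ∀ (I : Type) [LinearOrder I], (∀ i : I, (Iio i).Countable) →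
  ∀ h : I → ℕ → ℕ, (∀ Φ : ℕ → ℕ, ∃ α, ∃ᶠ n in atTop, Φ n < h α n) →
  ∀ (γ : I) (Φ : ℕ → ℕ), ∃ α, γ ≤ α ∧ ∃ᶠ n in atTop, Φ n < h α n

/-- bounding -/
def S_Bdd : Prop := ∀ (X : Type) [MeasurableSpace X] (μ : Measure X) [IsProbabilityMeasure μ],
  (∀ s : Set X, MeasurableSet s) → ∀ φ : X → ℕ → ℕ, ∃ Φ : ℕ → ℕ, μ {x | ∀ n, φ x n ≤ Φ n} ≠ 0

/-- measurability of the members of the family -/
def S_MeasA : Prop := ∀ (I X : Type) [LinearOrder I] [WellFoundedLT I],
  (∀ i : I, (Iio i).Countable) → ∀ (b : I → ℕ → Set X) (e : I → I → ℕ) (g : I → ℕ → ℕ)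
  (A : I → X → Set ℕ), IsSys b e g A →
  ∀ γ β k, β < γ → MeasurableSet[Sb b γ] {x | k ∈ A β x}

/-- measurability of the sets of good points -/
def S_KM : Prop := ∀ (I X : Type) [LinearOrder I], (∀ i : I, (Iio i).Countable) →
  ∀ (b : I → ℕ → Set X) (A : I → X → Set ℕ) (γ : I),
  (∀ β k, β < γ → MeasurableSet[Sb b γ] {x | k ∈ A β x}) →
  ∀ (e : I → ℕ) (Z : X → Set ℕ) (u v : ℕ) (K : Finset ℕ),
  MeasurableSet[Gm b (chf Z) γ] {x | Ks (fun β => A β x) e (Z x) γ u v = (K : Set ℕ)}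

/-- there are many good points -/
def S_Thr : Prop := ∀ (I : Type) [LinearOrder I] (A : I → Set ℕ) (e : I → ℕ) (Z : Set ℕ) (γ : I),
  InjOn e (Iio γ) → Z.Infinite → (∀ β, β < γ → (Z ∩ A β).Finite) →
  (∀ j, (Z ∩ {k | val k = j}).Finite) → ∀ u, ∃ v, 4 ^ u ≤ (Ks A e Z γ u v).ncard

/-- good points which are caught -/
def S_Hit : Prop := ∀ (I X : Type) [LinearOrder I] (b : I → ℕ → Set X) (e : I → I → ℕ)
  (g : I → ℕ → ℕ) (A : I → X → Set ℕ), (∀ α, StrictMono (g α)) → IsSys b e g A →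
  ∀ (Z : Set ℕ) (γ α : I) (x : X) (n k : ℕ), γ ≤ α →
  (∀ β, β < γ → e α β ≤ n → e γ β ≤ g α n) →
  k ∈ Ks (fun β => A β x) (e γ) Z γ (g α n) (g α (n + 1)) → x ∈ b α k →
  (∀ β, γ ≤ β → β < α → e α β ≤ n → x ∉ b β k) → k ∈ Z ∩ A α x ∧ n ≤ k

/-- the probability that no point of `K` is caught -/
def S_Cnt : Prop := ∀ (I X : Type) [LinearOrder I] [MeasurableSpace X] (μ : Measure X)
  [IsProbabilityMeasure μ], (∀ s : Set X, MeasurableSet s) →
  ∀ (b : I → ℕ → Set X) (γ : I) (E : Set X), Ind μ b γ E → ∀ (α : I) (Fn : Finset I), γ ≤ α →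
  (∀ β ∈ Fn, γ ≤ β ∧ β < α) → ∀ K : Finset ℕ,
  (K.card : ENNReal) * μ (E ∩ {x | ∀ k ∈ K, ¬ (x ∈ b α k ∧ ∀ β ∈ Fn, x ∉ b β k)}) ≤
    2 ^ (Fn.card + 1) * μ E

/-- the same for a random set -/
def S_Bad : Prop := ∀ (I X : Type) [LinearOrder I] [MeasurableSpace X] (μ : Measure X)
  [IsProbabilityMeasure μ], (∀ s : Set X, MeasurableSet s) →
  ∀ (b : I → ℕ → Set X) (γ : I) (F : X → Y),
  (∀ E, MeasurableSet[Gm b F γ] E → Ind μ b γ E) → ∀ (α : I) (Fn : Finset I), γ ≤ α →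
  (∀ β ∈ Fn, γ ≤ β ∧ β < α) → ∀ (v : ℕ) (Kx : X → Set ℕ), (∀ x, Kx x ⊆ Iio v) →
  (∀ K : Finset ℕ, MeasurableSet[Gm b F γ] {x | Kx x = (K : Set ℕ)}) → ∀ M : ℕ,
  (M : ENNReal) * μ {x | M ≤ (Kx x).ncard ∧ ∀ k ∈ Kx x, ¬ (x ∈ b α k ∧ ∀ β ∈ Fn, x ∉ b β k)} ≤
    2 ^ (Fn.card + 1)

/-- the main argument -/
def S_Main : Prop := ∀ (I X : Type) [LinearOrder I] [WellFoundedLT I] [MeasurableSpace X]
  (μ : Measure X) [IsProbabilityMeasure μ], (∀ s : Set X, MeasurableSet s) →
  (∀ i : I, (Iio i).Countable) → ∀ (b : I → ℕ → Set X), Bits μ b →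
  ∀ (e : I → I → ℕ) (g : I → ℕ → ℕ) (A : I → X → Set ℕ), (∀ α, InjOn (e α) (Iio α)) →
  (∀ α, StrictMono (g α)) →
  (∀ α γ, γ ≤ α → ∀ᶠ n in atTop, ∀ β, β < γ → e α β ≤ n → e γ β ≤ g α n) →
  (∀ (γ : I) (φ : ℕ → ℕ), ∃ α, γ ≤ α ∧ ∃ᶠ n in atTop, φ (g α n) ≤ g α (n + 1)) →
  IsSys b e g A → ∃ x : X, ∀ Z : Set ℕ, Z.Infinite →
    (∀ j, (Z ∩ {k | val k = j}).Finite) → ∃ α, (Z ∩ A α x).Infinite

/-- infinite maximal almost disjoint families are uncountable -/
def S_Unc : Prop := ∀ A : Set (Set ℕ), IsAD A → IsMax A → Cardinal.aleph0 < Cardinal.mk A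

/-- the theorem -/
def S_Fin : Prop := ∀ (X : Type) [MeasurableSpace X] (μ : Measure X), Tot X μ →
  Cardinal.mk X ≤ Cardinal.continuum →
  (∃ A : Set (Set ℕ), IsAD A ∧ IsMax A ∧ Cardinal.mk A = Cardinal.aleph 1 ∧
    Cardinal.mk A < Cardinal.mk X) ∨
  ∀ F : Set (ℕ → ℕ), Cardinal.mk F ≤ Cardinal.aleph 1 →
    ∃ g : ℕ → ℕ, ∀ f ∈ F, ∀ᶠ n in atTop, f n ≤ g n

end Pool.Agent.Work.MP_da56a7_lc.B

end

section

set_option autoImplicit false

open MeasureTheory Set Filter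

namespace Pool.Agent.Work.MP_da56a7_lc.B

theorem pr_Bad (h : S_Cnt) : S_Bad := by
  classical
  intro I X _ _ μ _ allM b γ F hInd α Fn hγα hFn v Kx hKx hmeas M
  set V : Set X := {x | M ≤ (Kx x).ncard ∧ ∀ k ∈ Kx x, ¬ (x ∈ b α k ∧ ∀ β ∈ Fn, x ∉ b β k)}
    with hV
  set P : Finset (Finset ℕ) := (Finset.range v).powerset.filter (fun K => M ≤ K.card) with hP
  set EK : Finset ℕ → Set X := fun K => {x | Kx x = (K : Set ℕ)} with hEK
  set BK : Finset ℕ → Set X := fun K => {x | ∀ k ∈ K, ¬ (x ∈ b α k ∧ ∀ β ∈ Fn, x ∉ b β k)}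
    with hBK
  have hsub : V ⊆ ⋃ K ∈ P, (EK K ∩ BK K) := by
    intro x hx
    obtain ⟨hx1, hx2⟩ := hx
    have hfin : (Kx x).Finite := (Set.finite_Iio v).subset (hKx x)
    obtain ⟨K, hK⟩ := hfin.exists_finset_coe
    have hcard : (Kx x).ncard = K.card := by rw [← hK, Set.ncard_coe_finset]
    simp only [mem_iUnion, exists_prop]
    refine ⟨K, ?_, hK.symm, ?_⟩
    · rw [hP, Finset.mem_filter, Finset.mem_powerset]
      refine ⟨?_, hcard ▸ hx1⟩
      intro k hk
      have : k ∈ Kx x := by rw [← hK]; exact hk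
      exact Finset.mem_range.2 (hKx x this)
    · intro k hk
      exact hx2 k (by rw [← hK]; exact hk)
  have hpair : (P : Set (Finset ℕ)).PairwiseDisjoint EK := by
    intro K _ K' _ hne
    refine Set.disjoint_left.2 ?_
    intro x hx hx'
    apply hne
    have h1 : Kx x = (K : Set ℕ) := hx
    have h2 : Kx x = (K' : Set ℕ) := hx'
    exact Finset.coe_injective (h1.symm.trans h2)
  have hsum : ∑ K ∈ P, μ (EK K) ≤ 1 := by
    rw [← measure_biUnion_finset hpair (fun K _ => allM _)]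
    exact prob_le_one
  calc (M : ENNReal) * μ V ≤ (M : ENNReal) * ∑ K ∈ P, μ (EK K ∩ BK K) := by
        gcongr
        exact (measure_mono hsub).trans (measure_biUnion_finset_le _ _)
    _ = ∑ K ∈ P, (M : ENNReal) * μ (EK K ∩ BK K) := Finset.mul_sum _ _ _
    _ ≤ ∑ K ∈ P, 2 ^ (Fn.card + 1) * μ (EK K) := by
        refine Finset.sum_le_sum ?_
        intro K hK
        rw [hP, Finset.mem_filter] at hK
        refine le_trans ?_ (h I X μ allM b γ (EK K) (hInd _ (hmeas K)) α Fn hγα hFn K)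
        gcongr
        exact hK.2
    _ = 2 ^ (Fn.card + 1) * ∑ K ∈ P, μ (EK K) := (Finset.mul_sum _ _ _).symm
    _ ≤ 2 ^ (Fn.card + 1) * 1 := by gcongr
    _ = 2 ^ (Fn.card + 1) := mul_one _

end Pool.Agent.Work.MP_da56a7_lc.B

end

section

set_option autoImplicit false

/-!
# MP_da56a7_lc, block B: a set independent of `f`, of measure one half
-/

open MeasureTheory Set Filter

namespace Pool.Agent.Work.MP_da56a7_lc.B

namespace AuxBit

theorem arch (x y : ENNReal) (hx : x ≠ ⊤) (hy : y ≠ ⊤)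
    (h : ∀ k : ℕ, 2 ^ k * x ≤ 2 ^ (k + 1) * y + 2 * x) : x ≤ 2 * y := by
  by_contra hc
  push Not at hc
  have h2y : (2 * y) ≠ ⊤ := ENNReal.mul_ne_top (by simp) hy
  have hr : 2 * y.toReal < x.toReal := by
    have h3 := (ENNReal.toReal_lt_toReal h2y hx).2 hc
    simpa using h3
  have hk : ∀ k : ℕ, (2 : ℝ) ^ k * x.toReal ≤ 2 ^ (k + 1) * y.toReal + 2 * x.toReal := by
    intro k
    have h4 : (2 ^ k * x).toReal ≤ (2 ^ (k + 1) * y + 2 * x).toReal := by
      apply ENNReal.toReal_mono _ (h k)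
      exact ENNReal.add_ne_top.2 ⟨ENNReal.mul_ne_top (by simp) hy,
        ENNReal.mul_ne_top (by simp) hx⟩
    rw [ENNReal.toReal_add (ENNReal.mul_ne_top (by simp) hy)
      (ENNReal.mul_ne_top (by simp) hx)] at h4
    simpa using h4
  obtain ⟨k, hk2⟩ := pow_unbounded_of_one_lt (2 * x.toReal / (x.toReal - 2 * y.toReal))
    (by norm_num : (1 : ℝ) < 2)
  have hpos : 0 < x.toReal - 2 * y.toReal := by linarith
  rw [div_lt_iff₀ hpos] at hk2
  have h5 := hk k
  rw [pow_succ] at h5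
  nlinarith

end AuxBit

theorem pr_Bit (h1 : S_Half) (h2 : S_Exh) : S_Bit := by
  intro X _ μ _ hall f hf
  have hfm : Measurable f := fun s _ => hall _
  obtain ⟨c, hc, hmax⟩ := h2 X μ hall f
  refine ⟨c, fun B hB => ?_⟩
  refine le_antisymm (hc B hB) ?_
  by_contra hlt
  push Not at hlt
  have key : ∀ P : Set Y, MeasurableSet P → ∀ k : ℕ, μ (f ⁻¹' P) ≠ 0 →
      ¬ (∀ t : Set Y, MeasurableSet t → t ⊆ P →
        2 ^ (k + 1) * μ (c ∩ f ⁻¹' t) + 2 * μ (f ⁻¹' t) ≤ 2 ^ k * μ (f ⁻¹' t)) := by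
    intro P hP k hP0 hle
    have ha : μ (f ⁻¹' P \ c) ≠ 0 := by
      intro h0
      have h3 : μ (f ⁻¹' P) ≤ μ (c ∩ f ⁻¹' P) := by
        calc μ (f ⁻¹' P) ≤ μ ((c ∩ f ⁻¹' P) ∪ (f ⁻¹' P \ c)) := by
              apply measure_mono
              intro x hx
              by_cases hxc : x ∈ c
              · exact Or.inl ⟨hxc, hx⟩
              · exact Or.inr ⟨hx, hxc⟩
          _ ≤ μ (c ∩ f ⁻¹' P) + μ (f ⁻¹' P \ c) := measure_union_le _ _
          _ = μ (c ∩ f ⁻¹' P) := by rw [h0, add_zero]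
      have h4 := hc P hP
      have h5 : 2 * μ (f ⁻¹' P) ≤ μ (f ⁻¹' P) := le_trans (by gcongr) h4
      rw [two_mul] at h5
      have h6 : μ (f ⁻¹' P) + μ (f ⁻¹' P) ≤ μ (f ⁻¹' P) + 0 := by simpa using h5
      have h7 := (ENNReal.add_le_add_iff_left (measure_ne_top μ (f ⁻¹' P))).1 h6
      exact hP0 (le_antisymm h7 bot_le)
    obtain ⟨c', hc'a, hc'0, hc'⟩ := h1 X μ hall f hf (f ⁻¹' P \ c) ha k
    apply hc'0
    apply hmax c'
    · rw [Set.disjoint_left]
      intro x hx hx'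
      exact (hc'a hx').2 hx
    · intro B hB
      have hsub : (c ∪ c') ∩ f ⁻¹' B ⊆
          ((c ∩ f ⁻¹' (B ∩ P)) ∪ (c' ∩ f ⁻¹' (B ∩ P))) ∪ (c ∩ f ⁻¹' (B \ P)) := by
        intro x hx
        rcases hx with ⟨hx1, hx2⟩
        by_cases hxP : f x ∈ P
        · rcases hx1 with hx1 | hx1
          · exact Or.inl (Or.inl ⟨hx1, hx2, hxP⟩)
          · exact Or.inl (Or.inr ⟨hx1, hx2, hxP⟩)
        · rcases hx1 with hx1 | hx1
          · exact Or.inr ⟨hx1, hx2, hxP⟩
          · exact absurd (hc'a hx1).1 hxP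
      have ht := hle (B ∩ P) (hB.inter hP) inter_subset_right
      have hA : 2 * μ (c ∩ f ⁻¹' (B ∩ P)) + 2 * μ (c' ∩ f ⁻¹' (B ∩ P)) ≤
          μ (f ⁻¹' (B ∩ P)) := by
        have h2k0 : (2 ^ k : ENNReal) ≠ 0 := by simp
        have h2kt : (2 ^ k : ENNReal) ≠ ⊤ := by simp
        rw [← ENNReal.mul_le_mul_iff_right h2k0 h2kt]
        refine le_trans ?_ ht
        have h8 := hc' (B ∩ P) (hB.inter hP)
        have h9 : μ ((f ⁻¹' P \ c) ∩ f ⁻¹' (B ∩ P)) ≤ μ (f ⁻¹' (B ∩ P)) :=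
          measure_mono inter_subset_right
        calc 2 ^ k * (2 * μ (c ∩ f ⁻¹' (B ∩ P)) + 2 * μ (c' ∩ f ⁻¹' (B ∩ P)))
            = 2 ^ (k + 1) * μ (c ∩ f ⁻¹' (B ∩ P)) +
                2 * (2 ^ k * μ (c' ∩ f ⁻¹' (B ∩ P))) := by ring
          _ ≤ 2 ^ (k + 1) * μ (c ∩ f ⁻¹' (B ∩ P)) + 2 * μ (f ⁻¹' (B ∩ P)) := by
              gcongr
              exact le_trans h8 h9
      have hBm : μ (f ⁻¹' (B ∩ P)) + μ (f ⁻¹' (B \ P)) = μ (f ⁻¹' B) := by
        rw [← measure_inter_add_sdiff (f ⁻¹' B) (hall (f ⁻¹' P))]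
        rfl
      calc 2 * μ ((c ∪ c') ∩ f ⁻¹' B)
          ≤ 2 * (μ (c ∩ f ⁻¹' (B ∩ P)) + μ (c' ∩ f ⁻¹' (B ∩ P)) + μ (c ∩ f ⁻¹' (B \ P))) := by
            gcongr
            refine le_trans (measure_mono hsub) ?_
            refine le_trans (measure_union_le _ _) ?_
            gcongr
            exact measure_union_le _ _
        _ = (2 * μ (c ∩ f ⁻¹' (B ∩ P)) + 2 * μ (c' ∩ f ⁻¹' (B ∩ P))) +
              2 * μ (c ∩ f ⁻¹' (B \ P)) := by ring
        _ ≤ μ (f ⁻¹' (B ∩ P)) + μ (f ⁻¹' (B \ P)) := by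
            gcongr
            exact hc _ (hB.diff hP)
        _ = μ (f ⁻¹' B) := hBm
  apply absurd hlt
  push Not
  have hstep : ∀ k : ℕ, 2 ^ k * μ (f ⁻¹' B) ≤
      2 ^ (k + 1) * μ (c ∩ f ⁻¹' B) + 2 * μ (f ⁻¹' B) := by
    intro k
    have : IsFiniteMeasure (Measure.map f μ) := inferInstance
    have : IsFiniteMeasure (Measure.map f (μ.restrict c)) := inferInstance
    set m : Measure Y := Measure.map f μ with hm
    set mc : Measure Y := Measure.map f (μ.restrict c) with hmc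
    have em : ∀ t : Set Y, MeasurableSet t → m t = μ (f ⁻¹' t) := by
      intro t ht
      rw [hm, Measure.map_apply hfm ht]
    have emc : ∀ t : Set Y, MeasurableSet t → mc t = μ (c ∩ f ⁻¹' t) := by
      intro t ht
      rw [hmc, Measure.map_apply hfm ht, Measure.restrict_apply (hall _), inter_comm]
    have e1 : ∀ t : Set Y, MeasurableSet t →
        ((2 ^ (k + 1) : NNReal) • mc + (2 : NNReal) • m) t =
          2 ^ (k + 1) * μ (c ∩ f ⁻¹' t) + 2 * μ (f ⁻¹' t) := by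
      intro t ht
      rw [Measure.add_apply, Measure.smul_apply, Measure.smul_apply, em t ht, emc t ht]
      simp [ENNReal.smul_def]
    have e2 : ∀ t : Set Y, MeasurableSet t →
        ((2 ^ k : NNReal) • m) t = 2 ^ k * μ (f ⁻¹' t) := by
      intro t ht
      rw [Measure.smul_apply, em t ht]
      simp [ENNReal.smul_def]
    obtain ⟨P, hP, hP1, hP2⟩ := hahn_decomposition ((2 ^ k : NNReal) • m)
      ((2 ^ (k + 1) : NNReal) • mc + (2 : NNReal) • m)
    have hP0 : μ (f ⁻¹' P) = 0 := by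
      by_contra h0
      apply key P hP k h0
      intro t ht htP
      rw [← e1 t ht, ← e2 t ht]
      exact hP1 t ht htP
    have h3 := hP2 (B \ P) (hB.diff hP) (fun x hx => hx.2)
    rw [e1 _ (hB.diff hP), e2 _ (hB.diff hP)] at h3
    have h4 : μ (f ⁻¹' B) ≤ μ (f ⁻¹' (B \ P)) := by
      rw [← measure_inter_add_sdiff (f ⁻¹' B) (hall (f ⁻¹' P))]
      have h5 : μ (f ⁻¹' B ∩ f ⁻¹' P) = 0 := measure_mono_null inter_subset_right hP0
      rw [h5, zero_add]
      rfl
    calc 2 ^ k * μ (f ⁻¹' B) ≤ 2 ^ k * μ (f ⁻¹' (B \ P)) := by gcongr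
      _ ≤ 2 ^ (k + 1) * μ (c ∩ f ⁻¹' (B \ P)) + 2 * μ (f ⁻¹' (B \ P)) := h3
      _ ≤ 2 ^ (k + 1) * μ (c ∩ f ⁻¹' B) + 2 * μ (f ⁻¹' B) := by
          gcongr
          · exact sdiff_subset
          · exact sdiff_subset
  exact AuxBit.arch _ _ (measure_ne_top μ _) (measure_ne_top μ _) hstep

end Pool.Agent.Work.MP_da56a7_lc.B

end

section

set_option autoImplicit false

/-!
# The bits
-/

open MeasureTheory Set Filter

namespace Pool.Agent.Work.MP_da56a7_lc.B

theorem pr_Bits (h1 : S_Seq) (h2 : S_CI) : S_Bits := by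
  classical
  intro X _ μ hT hX I _ _ hI hIc
  have hJ : ∀ j : I ×ₗ ℕ, (Iio j).Countable := by
    intro j
    have h3 : ((Iio (ofLex j).1 ∪ {(ofLex j).1}) ×ˢ (univ : Set ℕ)).Countable :=
      ((hI _).union (countable_singleton _)).prod countable_univ
    refine (h3.image toLex).mono ?_
    intro p hp
    refine ⟨ofLex p, ⟨?_, mem_univ _⟩, rfl⟩
    rcases Prod.Lex.lt_iff.1 (show p < j from hp) with h | h
    · exact Or.inl h
    · exact Or.inr h.1
  have hJc : ¬ Countable (I ×ₗ ℕ) := by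
    intro hc
    apply hIc
    have : Function.Injective (fun i : I => (toLex (i, 0) : I ×ₗ ℕ)) := by
      intro i i' h
      have := congrArg (fun p : I ×ₗ ℕ => (ofLex p).1) h
      exact this
    exact this.countable
  obtain ⟨R, hR⟩ := h1 X μ hT hX (I ×ₗ ℕ) hJ
  refine ⟨fun β k => R (toLex (β, k)), ?_⟩
  intro F
  have := hT.prob
  obtain ⟨j0, hj0⟩ := h2 X μ hT.allM (I ×ₗ ℕ) hJ hJc R hR F
  obtain ⟨γ, hγ⟩ : ∃ γ : I, (ofLex j0).1 < γ := by
    by_contra hcon
    push Not at hcon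
    apply hIc
    have h3 : (univ : Set I) ⊆ Iio (ofLex j0).1 ∪ {(ofLex j0).1} := by
      intro i _
      rcases lt_or_eq_of_le (hcon i) with h | h
      · exact Or.inl h
      · exact Or.inr h
    exact countable_univ_iff.1 (((hI _).union (countable_singleton _)).mono h3)
  have hj : j0 ≤ toLex (γ, 0) := by
    apply le_of_lt
    rw [Prod.Lex.lt_iff]
    exact Or.inl hγ
  refine ⟨γ, ?_⟩
  intro E hE s ε hs
  have hle : Gm (fun β k => R (toLex (β, k))) F γ ≤
      MeasurableSpace.comap F inferInstance ⊔ Sg R (toLex (γ, 0)) := by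
    refine sup_le_sup le_rfl ?_
    refine MeasurableSpace.generateFrom_mono ?_
    rintro t ⟨β, hβ, k, rfl⟩
    refine ⟨toLex (β, k), ?_, rfl⟩
    rw [Prod.Lex.lt_iff]
    exact Or.inl hβ
  have h3 := hj0 (toLex (γ, 0)) hj E (hle E hE) (s.map toLex.toEmbedding)
    (fun p => ε (ofLex p)) (by
      intro i hi
      rw [Finset.mem_map] at hi
      obtain ⟨p, hp, rfl⟩ := hi
      rw [Prod.Lex.le_iff]
      rcases lt_or_eq_of_le (hs p hp) with h | h
      · exact Or.inl h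
      · exact Or.inr ⟨h, Nat.zero_le _⟩)
  rw [Finset.card_map] at h3
  have h4 : cylb (fun β k => R (toLex (β, k))) s ε =
      cyl R (s.map toLex.toEmbedding) (fun p => ε (ofLex p)) := by
    ext x
    constructor
    · intro hx i hi
      rw [Finset.mem_map] at hi
      obtain ⟨p, hp, rfl⟩ := hi
      exact hx p hp
    · intro hx p hp
      exact hx (toLex p) (Finset.mem_map.2 ⟨p, hp, rfl⟩)
  rw [h4]
  exact h3

end Pool.Agent.Work.MP_da56a7_lc.B

end

section

set_option autoImplicit false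

/-!
# MP_da56a7_lc, block B: every function is independent of the bits from some place on
-/

open MeasureTheory Set Filter

namespace Pool.Agent.Work.MP_da56a7_lc.B

namespace AuxCI

/-- cylinders of the Cantor space -/
def U (p : Finset ℕ × Finset ℕ) : Set Y := {y | ∀ n ∈ p.1, (y n = true ↔ n ∈ p.2)}

theorem U_inter (p q : Finset ℕ × Finset ℕ) (h : (U p ∩ U q).Nonempty) :
    ∃ r, U p ∩ U q = U r := by
  classical
  obtain ⟨y0, hy1, hy2⟩ := h
  refine ⟨(p.1 ∪ q.1, (p.1 ∪ q.1).filter fun n => y0 n = true), ?_⟩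
  ext y
  constructor
  · rintro ⟨h1, h2⟩ n hn
    rcases Finset.mem_union.mp hn with hn' | hn'
    · rw [h1 n hn', ← hy1 n hn', Finset.mem_filter]
      exact ⟨fun h => ⟨hn, h⟩, fun h => h.2⟩
    · rw [h2 n hn', ← hy2 n hn', Finset.mem_filter]
      exact ⟨fun h => ⟨hn, h⟩, fun h => h.2⟩
  · intro h
    have h3 : ∀ n ∈ p.1 ∪ q.1, (y n = true ↔ y0 n = true) := by
      intro n hn
      rw [h n hn, Finset.mem_filter]
      exact ⟨fun h => h.2, fun h => ⟨hn, h⟩⟩
    exact ⟨fun n hn => (h3 n (Finset.mem_union_left _ hn)).trans (hy1 n hn),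
      fun n hn => (h3 n (Finset.mem_union_right _ hn)).trans (hy2 n hn)⟩

theorem U_meas (p : Finset ℕ × Finset ℕ) : MeasurableSet (U p) := by
  have h : U p = ⋂ n ∈ p.1, {y : Y | y n = true ↔ n ∈ p.2} := by
    ext y
    simp [U]
  rw [h]
  refine MeasurableSet.biInter p.1.countable_toSet fun n _ => ?_
  have h2 : MeasurableSet {y : Y | y n = true} := by
    have : {y : Y | y n = true} = (fun y : Y => y n) ⁻¹' {true} := rfl
    rw [this]
    exact measurable_pi_apply n (measurableSet_singleton true)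
  by_cases hn : n ∈ p.2
  · have : {y : Y | y n = true ↔ n ∈ p.2} = {y : Y | y n = true} := by
      ext y
      simp [hn]
    rw [this]
    exact h2
  · have : {y : Y | y n = true ↔ n ∈ p.2} = {y : Y | y n = true}ᶜ := by
      ext y
      simp [hn]
    rw [this]
    exact h2.compl

theorem bound {ι J : Type} [Countable ι] [LinearOrder J] (h1 : ∀ j : J, (Iio j).Countable)
    (h2 : ¬ Countable J) (f : ι → J) : ∃ j, ∀ q, f q ≤ j := by
  by_contra hcon
  push Not at hcon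
  apply h2
  have h3 : (⋃ q : ι, Iio (f q)) = univ := by
    refine eq_univ_of_forall fun j => ?_
    obtain ⟨q, hq⟩ := hcon j
    exact mem_iUnion.mpr ⟨q, hq⟩
  rw [← countable_univ_iff, ← h3]
  exact countable_iUnion fun q => h1 _

/-- the generating system -/
def Ps {X : Type} (F : X → Y) (m : MeasurableSpace X) : Set (Set X) :=
  {s | ∃ p, ∃ E : Set X, MeasurableSet[m] E ∧ s = F ⁻¹' U p ∩ E}

theorem Ps_pi {X : Type} (F : X → Y) (m : MeasurableSpace X) : IsPiSystem (Ps F m) := by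
  rintro s ⟨p, E, hE, rfl⟩ t ⟨q, E', hE', rfl⟩ hne
  obtain ⟨x, hx1, hx2⟩ := hne
  obtain ⟨r, hr⟩ := U_inter p q ⟨F x, hx1.1, hx2.1⟩
  refine ⟨r, E ∩ E', @MeasurableSet.inter X m _ _ hE hE', ?_⟩
  rw [← hr, preimage_inter]
  ext z
  simp only [mem_inter_iff]
  tauto

theorem Ps_gen {X : Type} (F : X → Y) (m : MeasurableSpace X) :
    MeasurableSpace.comap F inferInstance ⊔ m = MeasurableSpace.generateFrom (Ps F m) := by
  have hU : U (∅, ∅) = univ := by
    ext y
    simp [U]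
  refine le_antisymm (sup_le ?_ ?_) ?_
  · refine @Measurable.comap_le X Y (MeasurableSpace.generateFrom (Ps F m)) _ F ?_
    refine @measurable_pi_lambda X ℕ (fun _ => Bool) (MeasurableSpace.generateFrom (Ps F m)) _ _
      fun n => ?_
    refine @measurable_to_bool X (MeasurableSpace.generateFrom (Ps F m)) _ ?_
    refine MeasurableSpace.measurableSet_generateFrom ⟨({n}, {n}), univ, ?_, ?_⟩
    · exact @MeasurableSet.univ X m
    · ext x
      simp [U]
  · intro E hE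
    refine MeasurableSpace.measurableSet_generateFrom ⟨(∅, ∅), E, hE, ?_⟩
    rw [hU, preimage_univ, univ_inter]
  · refine MeasurableSpace.generateFrom_le ?_
    rintro s ⟨p, E, hE, rfl⟩
    refine @MeasurableSet.inter X (MeasurableSpace.comap F inferInstance ⊔ m) _ _ ?_ ?_
    · exact (le_sup_left : MeasurableSpace.comap F inferInstance ≤ _) _ ⟨U p, U_meas p, rfl⟩
    · exact (le_sup_right : m ≤ MeasurableSpace.comap F inferInstance ⊔ m) _ hE

end AuxCI

open AuxCI in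
theorem pr_CI (h : S_CI1) : S_CI := by
  intro X m0 μ hμ allM J _ _ hJ1 hJ2 R hHv F
  classical
  choose jf hjf using fun p : Finset ℕ × Finset ℕ => h X μ allM J hJ1 hJ2 R hHv (F ⁻¹' U p)
  obtain ⟨j0, hj0⟩ := bound hJ1 hJ2 jf
  refine ⟨j0, ?_⟩
  intro j hj E hE s ε hs
  have hbase : ∀ p, ∀ E0 : Set X, MeasurableSet[Sg R j] E0 →
      2 ^ s.card * μ (F ⁻¹' U p ∩ E0 ∩ cyl R s ε) = μ (F ⁻¹' U p ∩ E0) := by
    intro p E0 hE0
    exact hjf p j ((hj0 p).trans hj) E0 hE0 s ε hs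
  have hU : U (∅, ∅) = univ := by
    ext y
    simp [U]
  have huniv : 2 ^ s.card * μ (cyl R s ε) = μ univ := by
    have h1 := hbase (∅, ∅) univ (@MeasurableSet.univ X (Sg R j))
    rwa [hU, preimage_univ, univ_inter, univ_inter] at h1
  refine MeasurableSpace.induction_on_inter
    (C := fun t _ => 2 ^ s.card * μ (t ∩ cyl R s ε) = μ t)
    (Ps_gen F (Sg R j)) (Ps_pi F (Sg R j)) ?_ ?_ ?_ ?_ E hE
  · simp
  · rintro t ⟨p, E0, hE0, rfl⟩
    exact hbase p E0 hE0
  · intro t _ ht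
    have e1 : μ (t ∩ cyl R s ε) + μ (tᶜ ∩ cyl R s ε) = μ (cyl R s ε) := by
      rw [inter_comm t, inter_comm tᶜ, ← sdiff_eq]
      exact measure_inter_add_sdiff (cyl R s ε) (allM t)
    have e2 : μ t + μ tᶜ = μ univ := measure_add_measure_compl (allM t)
    have e3 : μ t + 2 ^ s.card * μ (tᶜ ∩ cyl R s ε) = μ t + μ tᶜ := by
      rw [e2, ← huniv, ← e1, mul_add, ht]
    exact (ENNReal.add_right_inj (measure_ne_top μ t)).mp e3
  · intro f hd _ hf
    rw [iUnion_inter, measure_iUnion (fun a b hab => (hd hab).mono inter_subset_left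
      inter_subset_left) (fun i => allM _), measure_iUnion hd (fun i => allM _),
      ← ENNReal.tsum_mul_left]
    exact tsum_congr hf

end Pool.Agent.Work.MP_da56a7_lc.B

end

section

set_option autoImplicit false
set_option linter.style.haveILetI false

/-!
# MP_da56a7_lc, block B: fast functions
-/

open MeasureTheory Set Filter

namespace Pool.Agent.Work.MP_da56a7_lc.B

namespace AuxDom

/-- one fast function -/
theorem one (h : ℕ → ℕ) (w : ℕ → ℕ → ℕ) : ∃ g : ℕ → ℕ, StrictMono g ∧ (∀ n, h n ≤ g n) ∧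
    ∀ i n, i ≤ n → w i n ≤ g n := by
  refine ⟨fun n => ∑ m ∈ Finset.range (n + 1), (1 + h m + ∑ i ∈ Finset.range (m + 1), w i m),
    ?_, ?_, ?_⟩
  · apply strictMono_nat_of_lt_succ
    intro n
    rw [Finset.sum_range_succ _ (n + 1)]
    omega
  · intro n
    simp only
    rw [Finset.sum_range_succ _ n]
    omega
  · intro i n hin
    simp only
    rw [Finset.sum_range_succ _ n]
    have h1 : w i n ≤ ∑ i ∈ Finset.range (n + 1), w i n :=
      Finset.single_le_sum (f := fun i => w i n) (fun _ _ => Nat.zero_le _)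
        (Finset.mem_range.2 (by omega))
    omega

end AuxDom

theorem pr_Dom : S_Dom := by
  intro I _ hI h e he
  have key : ∀ α : I, ∃ g : ℕ → ℕ, StrictMono g ∧ (∀ n, h α n ≤ g n) ∧
      ∀ γ, γ ≤ α → ∀ᶠ n in atTop, ∀ β, β < γ → e α β ≤ n → e γ β ≤ g n := by
    intro α
    have hw : ∀ γ : I, ∀ n : ℕ, ∃ w : ℕ, γ ≤ α → ∀ β, β < γ → e α β ≤ n → e γ β ≤ w := by
      intro γ n
      by_cases hγ : γ ≤ α
      · have hfin : {β | β < γ ∧ e α β ≤ n}.Finite := by
          refine Set.Finite.of_finite_image (f := e α) ((Set.finite_Iic n).subset ?_) ?_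
          · rintro _ ⟨β, ⟨-, hβ⟩, rfl⟩
            exact hβ
          · refine (he α).mono ?_
            rintro β ⟨hβ, -⟩
            exact lt_of_lt_of_le hβ hγ
        obtain ⟨w, hw⟩ := (hfin.image (e γ)).bddAbove
        exact ⟨w, fun _ β hβ hn => hw ⟨β, ⟨hβ, hn⟩, rfl⟩⟩
      · exact ⟨0, fun h => absurd h hγ⟩
    choose w hw using hw
    have hc : (Iic α).Countable := by
      have : Iic α = insert α (Iio α) := by
        ext x
        simp only [mem_Iic, mem_insert_iff, mem_Iio]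
        exact le_iff_eq_or_lt
      rw [this]
      exact (hI α).insert α
    obtain ⟨c, hc⟩ := hc.exists_eq_range ⟨α, le_refl α⟩
    obtain ⟨g, hg1, hg2, hg3⟩ := AuxDom.one (h α) (fun i n => w (c i) n)
    refine ⟨g, hg1, hg2, ?_⟩
    intro γ hγ
    have hm : γ ∈ range c := by rw [← hc]; exact hγ
    obtain ⟨i, rfl⟩ := hm
    filter_upwards [eventually_ge_atTop i] with n hn β hβ hen
    exact (hw (c i) n hγ β hβ hen).trans (hg3 i n hn)
  choose g hg1 hg2 hg3 using key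
  exact ⟨g, hg1, hg2, hg3⟩

end Pool.Agent.Work.MP_da56a7_lc.B

end

section

set_option autoImplicit false

open MeasureTheory Set Filter

namespace Pool.Agent.Work.MP_da56a7_lc.B

namespace AuxEsc

/-- a monotone function above `φ` and the identity -/
def psi (φ : ℕ → ℕ) (x : ℕ) : ℕ := x + ∑ y ∈ Finset.range (x + 1), φ y

lemma psi_mono (φ : ℕ → ℕ) : Monotone (psi φ) := by
  intro x y h
  unfold psi
  exact Nat.add_le_add h (Finset.sum_le_sum_of_subset
    (Finset.range_mono (Nat.add_le_add_right h 1)))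

lemma le_psi (φ : ℕ → ℕ) (x : ℕ) : x ≤ psi φ x := Nat.le_add_right _ _

lemma phi_le_psi (φ : ℕ → ℕ) (x : ℕ) : φ x ≤ psi φ x := by
  unfold psi
  have h : φ x ≤ ∑ y ∈ Finset.range (x + 1), φ y :=
    Finset.single_le_sum (f := φ) (fun _ _ => Nat.zero_le _)
      (Finset.mem_range.mpr (Nat.lt_succ_self x))
  omega

lemma iter_mono (φ : ℕ → ℕ) {i j : ℕ} (h : i ≤ j) (x : ℕ) :
    (psi φ)^[i] x ≤ (psi φ)^[j] x := by
  induction h with
  | refl => exact le_rfl
  | step _ ih =>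
    rw [Function.iterate_succ_apply']
    exact ih.trans (le_psi φ _)

end AuxEsc

open AuxEsc in
/-- unbounded families escape -/
theorem pr_Esc : S_Esc := by
  intro K g _ hunb φ
  by_contra hcon
  push Not at hcon
  obtain ⟨α, hα⟩ := hunb (fun n => (psi φ)^[n] n)
  have h1 : ∀ᶠ n in atTop, g α (n + 1) < φ (g α n) := hcon α
  obtain ⟨n0, hn0⟩ := eventually_atTop.mp h1
  have h2 : ∀ j, g α (n0 + j) ≤ (psi φ)^[j] (g α n0) := by
    intro j
    induction j with
    | zero => exact le_rfl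
    | succ j ih =>
      rw [Function.iterate_succ_apply']
      calc g α (n0 + (j + 1)) ≤ φ (g α (n0 + j)) := (hn0 (n0 + j) (Nat.le_add_right _ _)).le
        _ ≤ psi φ (g α (n0 + j)) := phi_le_psi φ _
        _ ≤ psi φ ((psi φ)^[j] (g α n0)) := psi_mono φ ih
  obtain ⟨n, hn1, hn2⟩ := (hα.and_eventually (eventually_ge_atTop (max n0 (g α n0)))).exists
  have h3 : n0 ≤ n := (le_max_left _ _).trans hn2
  have h4 : g α n0 ≤ n := (le_max_right _ _).trans hn2
  have h5 := h2 (n - n0)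
  rw [Nat.add_sub_cancel' h3] at h5
  have h6 : g α n ≤ (psi φ)^[n] n :=
    h5.trans (((psi_mono φ).iterate (n - n0) h4).trans (iter_mono φ (Nat.sub_le n n0) n))
  exact absurd hn1 (not_lt.mpr h6)

end Pool.Agent.Work.MP_da56a7_lc.B

end

section

set_option autoImplicit false

open MeasureTheory Set Filter

namespace Pool.Agent.Work.MP_da56a7_lc.B

theorem pr_Hit (h : S_Nf) : S_Hit := by
  intro I X _ b e g A hg hs Z γ α x n k hγα he hk hx hb
  obtain ⟨hkZ, h1, h2, h3⟩ := hk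
  have hN : Nf (g α) k = n := (h _ (hg α)).1 n k h1 h2
  have h4 := h3 k le_rfl hkZ
  refine ⟨⟨hkZ, (hs α x k).2 ⟨hx, ?_, ?_⟩⟩, (hg α).le_apply.trans h1⟩
  · rw [hN]; exact lt_of_le_of_lt (hg α).le_apply h4.1
  · intro β hβ heβ hmem
    rw [hN] at heβ
    rcases lt_or_ge β γ with hlt | hge
    · exact h4.2 β hlt (he β hlt heβ) hmem
    · exact hb β hge hβ heβ ((hs β x k).1 hmem).1

end Pool.Agent.Work.MP_da56a7_lc.B

end

section

set_option autoImplicit false

/-!
# Kunen-Fubini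
-/

open MeasureTheory Set Filter

namespace Pool.Agent.Work.MP_da56a7_lc.B

namespace AuxKN

theorem eq_zero_of_forall {a C : ENNReal} (hC : C ≠ ⊤)
    (h : ∀ ε : ENNReal, ε ≠ 0 → a ≤ ε * C) : a = 0 := by
  have ht : Tendsto (fun k : ℕ => ((k : ENNReal))⁻¹ * C) atTop (nhds (0 * C)) :=
    ENNReal.Tendsto.mul_const ENNReal.tendsto_inv_nat_nhds_zero (Or.inr hC)
  rw [zero_mul] at ht
  have h2 : a ≤ 0 := ge_of_tendsto' ht fun k =>
    h _ (ENNReal.inv_ne_zero.2 (ENNReal.natCast_ne_top k))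
  exact nonpos_iff_eq_zero.1 h2

/-- the estimate for one level -/
theorem level (h : S_JM) {X : Type} [MeasurableSpace X] (μ : Measure X) [IsFiniteMeasure μ]
    (allM : ∀ s : Set X, MeasurableSet s) (m : Measure Y) [IsFiniteMeasure m] (N : X → Set Y)
    (hN : μ {z | m (N z) ≠ 0} = 0) (c : ENNReal) (hc : c ≠ 0) :
    m {y | c ≤ μ {z | y ∈ N z}} = 0 := by
  have key : c * m {y | c ≤ μ {z | y ∈ N z}} = 0 := by
    apply eq_zero_of_forall (measure_ne_top μ univ)
    intro ε hε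
    have hG : ∀ z, ∃ G : Set Y, IsOpen G ∧ N z ⊆ G ∧ (m (N z) = 0 → m G ≤ ε) := by
      intro z
      by_cases hz : m (N z) = 0
      · obtain ⟨U, hU1, hU2, hU3⟩ := Set.exists_isOpen_lt_of_lt (μ := m) (N z) ε
          (by rw [hz]; exact pos_iff_ne_zero.2 hε)
        exact ⟨U, hU2, hU1, fun _ => hU3.le⟩
      · exact ⟨univ, isOpen_univ, subset_univ _, fun h => absurd h hz⟩
    choose G hGo hGs hGm using hG
    have hS : MeasurableSet {p : X × Y | p.2 ∈ G p.1} := h X allM G hGo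
    have e1 : (μ.prod m) {p : X × Y | p.2 ∈ G p.1} = ∫⁻ z, m (G z) ∂μ :=
      Measure.prod_apply hS
    have e2 : (μ.prod m) {p : X × Y | p.2 ∈ G p.1} = ∫⁻ y, μ {z | y ∈ G z} ∂m :=
      Measure.prod_apply_symm hS
    have hle : ∫⁻ z, m (G z) ∂μ ≤ ε * μ univ := by
      rw [← lintegral_const]
      apply lintegral_mono_ae
      rw [ae_iff]
      refine measure_mono_null ?_ hN
      intro z hz hz0
      exact hz (hGm z hz0)
    have hmark := mul_meas_ge_le_lintegral (μ := m) (f := fun y => μ {z | y ∈ G z})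
      (measurable_measure_prodMk_right hS) c
    calc c * m {y | c ≤ μ {z | y ∈ N z}} ≤ c * m {y | c ≤ μ {z | y ∈ G z}} := by
          apply mul_le_mul_right
          apply measure_mono
          intro y hy
          exact le_trans hy (measure_mono fun z hz => hGs z hz)
      _ ≤ ∫⁻ y, μ {z | y ∈ G z} ∂m := hmark
      _ = ∫⁻ z, m (G z) ∂μ := by rw [← e2, e1]
      _ ≤ ε * μ univ := hle
  exact (mul_eq_zero.1 key).resolve_left hc

end AuxKN

theorem pr_KN (h : S_JM) : S_KN := by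
  intro X _ μ _ allM m _ N hN
  have hsub : {y | μ {z | y ∈ N z} ≠ 0} ⊆
      ⋃ n : ℕ, {y | ((n : ENNReal))⁻¹ ≤ μ {z | y ∈ N z}} := by
    intro y hy
    obtain ⟨n, hn⟩ := ENNReal.exists_inv_nat_lt hy
    exact mem_iUnion.2 ⟨n, hn.le⟩
  refine measure_mono_null hsub (measure_iUnion_null fun n => ?_)
  exact AuxKN.level h μ allM m N hN _ (ENNReal.inv_ne_zero.2 (ENNReal.natCast_ne_top n))

end Pool.Agent.Work.MP_da56a7_lc.B

end

section

set_option autoImplicit false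

/-!
# MP_da56a7_lc, block B, item Main: the main argument
-/

open MeasureTheory Set Filter

namespace Pool.Agent.Work.MP_da56a7_lc.B

namespace AuxMain

theorem ks_mono {I : Type} [LT I] (A : I → Set ℕ) (e : I → ℕ) (Z : Set ℕ) (γ : I) (u : ℕ)
    {v v' : ℕ} (h : v ≤ v') : Ks A e Z γ u v ⊆ Ks A e Z γ u v' := by
  rintro k ⟨h1, h2, h3, h4⟩
  exact ⟨h1, h2, lt_of_lt_of_le h3 h, h4⟩

theorem ks_sub {I : Type} [LT I] (A : I → Set ℕ) (e : I → ℕ) (Z : Set ℕ) (γ : I) (u v : ℕ) :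
    Ks A e Z γ u v ⊆ Iio v := fun _ hk => hk.2.2.1

theorem enn {a : ENNReal} {n c : ℕ} (hc : c ≤ n + 1)
    (h : ((4 ^ n : ℕ) : ENNReal) * a ≤ 2 ^ (c + 1)) : a ≤ 4 * (2⁻¹ : ENNReal) ^ n := by
  have h1 : ((4 ^ n : ℕ) : ENNReal) * a = 2 ^ n * (2 ^ n * a) := by
    push_cast
    rw [← mul_assoc, ← mul_pow]
    norm_num
  have h2 : (2 : ENNReal) ^ (c + 1) ≤ 2 ^ n * 4 := by
    calc (2 : ENNReal) ^ (c + 1) ≤ 2 ^ (n + 2) :=
          pow_le_pow_right₀ (by norm_num) (by omega)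
      _ = 2 ^ n * 4 := by rw [pow_add]; norm_num
  rw [h1] at h
  have h3 : (2 : ENNReal) ^ n * a ≤ 4 :=
    (ENNReal.mul_le_mul_iff_right (pow_ne_zero n (by norm_num))
      (ENNReal.pow_ne_top (by norm_num))).1 (h.trans h2)
  rw [← ENNReal.inv_pow, ← div_eq_mul_inv, ENNReal.le_div_iff_mul_le
    (Or.inl (pow_ne_zero n (by norm_num))) (Or.inl (ENNReal.pow_ne_top (by norm_num))), mul_comm]
  exact h3

end AuxMain

open AuxMain in
theorem pr_Main (h1 : S_Bdd) (h2 : S_MeasA) (h3 : S_KM) (h4 : S_Thr) (h5 : S_Hit) (h6 : S_Bad) :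
    S_Main := by
  classical
  intro I X _ _ _ μ _ hall hcnt b hbits e g A hinj hmono hdom hesc hsys
  by_contra hcon
  push Not at hcon
  choose Z hZinf hZval hZA using hcon
  obtain ⟨γ, hγ⟩ := hbits (chf Z)
  have hthr : ∀ x u, ∃ v, 4 ^ u ≤ (Ks (fun β => A β x) (e γ) (Z x) γ u v).ncard := fun x u =>
    h4 I (fun β => A β x) (e γ) (Z x) γ (hinj γ) (hZinf x) (fun β _ => hZA x β) (hZval x) u
  choose φ hφ using hthr
  obtain ⟨Φ, hΦ⟩ := h1 X μ hall φ
  obtain ⟨α, hγα, hfreq⟩ := hesc γ Φ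
  have hev := hdom α γ hγα
  have hmA : ∀ β k, β < γ → MeasurableSet[Sb b γ] {x | k ∈ A β x} :=
    h2 I X hcnt b e g A hsys γ
  -- the finite sets
  have hFfin : ∀ n : ℕ, {β | γ ≤ β ∧ β < α ∧ e α β ≤ n}.Finite := by
    intro n
    refine Set.Finite.of_finite_image (f := e α) ((Set.finite_Iic n).subset ?_) ?_
    · rintro _ ⟨β, hβ, rfl⟩
      exact hβ.2.2
    · intro β hβ β' hβ' h
      exact hinj α hβ.2.1 hβ'.2.1 h
  have hFcard : ∀ n, (hFfin n).toFinset.card ≤ n + 1 := by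
    intro n
    calc (hFfin n).toFinset.card ≤ (Finset.range (n + 1)).card := by
          refine Finset.card_le_card_of_injOn (e α) ?_ ?_
          · intro β hβ
            have := (hFfin n).mem_toFinset.1 (Finset.mem_coe.1 hβ)
            exact Finset.mem_coe.2 (Finset.mem_range.2 (Nat.lt_succ_of_le this.2.2))
          · intro β hβ β' hβ' h
            exact hinj α ((hFfin n).mem_toFinset.1 (Finset.mem_coe.1 hβ)).2.1
              ((hFfin n).mem_toFinset.1 (Finset.mem_coe.1 hβ')).2.1 h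
      _ = n + 1 := Finset.card_range _
  obtain ⟨K, hK⟩ : ∃ K : ℕ → X → Set ℕ, ∀ n x, K n x = Ks (fun β => A β x) (e γ) (Z x) γ
      (g α n) (g α (n + 1)) := ⟨_, fun _ _ => rfl⟩
  have hKsub : ∀ n x, K n x ⊆ Iio (g α (n + 1)) := fun n x => by
    rw [hK]; exact ks_sub _ _ _ _ _ _
  have hbad : ∀ n, μ {x | 4 ^ n ≤ (K n x).ncard ∧ ∀ k ∈ K n x,
      ¬ (x ∈ b α k ∧ ∀ β ∈ (hFfin n).toFinset, x ∉ b β k)} ≤ 4 * (2⁻¹ : ENNReal) ^ n := by
    intro n
    refine enn (hFcard n) ?_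
    refine h6 I X μ hall b γ (chf Z) hγ α (hFfin n).toFinset hγα ?_ (g α (n + 1)) (K n)
      (hKsub n) ?_ (4 ^ n)
    · intro β hβ
      have := (hFfin n).mem_toFinset.1 hβ
      exact ⟨this.1, this.2.1⟩
    · intro K'
      have := h3 I X hcnt b A γ hmA (e γ) Z (g α n) (g α (n + 1)) K'
      simp only [hK]
      exact this
  have hsum : ∑' n, μ {x | 4 ^ n ≤ (K n x).ncard ∧ ∀ k ∈ K n x,
      ¬ (x ∈ b α k ∧ ∀ β ∈ (hFfin n).toFinset, x ∉ b β k)} ≠ ⊤ := by
    refine ne_top_of_le_ne_top ?_ (ENNReal.tsum_le_tsum hbad)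
    rw [ENNReal.tsum_mul_left, ENNReal.tsum_geometric]
    exact ENNReal.mul_ne_top (by norm_num) (by norm_num)
  have hnull := measure_setOfPred_frequently_eq_zero hsum
  obtain ⟨x, hxD, hxV⟩ : ∃ x ∈ {x | ∀ n, φ x n ≤ Φ n},
      x ∉ {x | ∃ᶠ n in atTop, 4 ^ n ≤ (K n x).ncard ∧ ∀ k ∈ K n x,
      ¬ (x ∈ b α k ∧ ∀ β ∈ (hFfin n).toFinset, x ∉ b β k)} := by
    by_contra hc
    exact hΦ (measure_mono_null (fun x hx => by_contra fun h => hc ⟨x, hx, h⟩) hnull)
  have hxV' : ∀ᶠ n in atTop, ¬ (4 ^ n ≤ (K n x).ncard ∧ ∀ k ∈ K n x,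
      ¬ (x ∈ b α k ∧ ∀ β ∈ (hFfin n).toFinset, x ∉ b β k)) := by
    rw [← Filter.not_frequently]
    exact hxV
  have hall' := hfreq.and_eventually (hev.and hxV')
  refine (Set.infinite_of_forall_exists_gt (s := Z x ∩ A α x) fun m => ?_) (hZA x α)
  obtain ⟨n, hnm, hn1, hn2, hn3⟩ := Filter.frequently_atTop.1 hall' (m + 1)
  have hcard : 4 ^ n ≤ (K n x).ncard := by
    have h7 := hφ x (g α n)
    have h8 : Ks (fun β => A β x) (e γ) (Z x) γ (g α n) (φ x (g α n)) ⊆ K n x := by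
      rw [hK]
      exact ks_mono _ _ _ _ _ ((hxD (g α n)).trans hn1)
    have h9 := Set.ncard_le_ncard h8 ((Set.finite_Iio _).subset (hKsub n x))
    have h10 : 4 ^ n ≤ 4 ^ g α n := Nat.pow_le_pow_right (by norm_num) ((hmono α).le_apply)
    omega
  have h11 : ∃ k ∈ K n x, x ∈ b α k ∧ ∀ β ∈ (hFfin n).toFinset, x ∉ b β k := by
    by_contra hc
    exact hn3 ⟨hcard, fun k hk h => hc ⟨k, hk, h⟩⟩
  obtain ⟨k, hk, hk1, hk2⟩ := h11
  rw [hK] at hk
  have h12 := h5 I X b e g A hmono hsys (Z x) γ α x n k hγα hn2 hk hk1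
    (fun β hβ1 hβ2 hβ3 => hk2 β ((hFfin n).mem_toFinset.2 ⟨hβ1, hβ2, hβ3⟩))
  exact ⟨k, h12.1, by omega⟩

end Pool.Agent.Work.MP_da56a7_lc.B

end

section

set_option autoImplicit false

open MeasureTheory Set Filter

namespace Pool.Agent.Work.MP_da56a7_lc.B

theorem pr_Nf : S_Nf := by
  intro u hu
  have hid : ∀ n, n ≤ u n := fun n => hu.le_apply
  refine ⟨?_, ?_⟩
  · intro n k h1 h2
    unfold Nf
    rw [Nat.findGreatest_eq_iff]
    refine ⟨(hid n).trans h1, fun _ => h1, ?_⟩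
    intro m hm _ h3
    have h4 : u (n + 1) ≤ u m := hu.monotone hm
    omega
  · intro m k h
    by_contra hc
    push Not at hc
    have h1 : m ≤ k := (hid m).trans hc
    have h2 : m ≤ Nat.findGreatest (fun n => u n ≤ k) k :=
      Nat.le_findGreatest (P := fun n => u n ≤ k) h1 hc
    unfold Nf at h
    omega

end Pool.Agent.Work.MP_da56a7_lc.B

end

section

set_option autoImplicit false

/-!
# QS: two members of a large family agree on a positive set
-/

open MeasureTheory Set Filter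

namespace Pool.Agent.Work.MP_da56a7_lc.B

theorem pr_QS (h : S_KN) : S_QS := by
  classical
  intro X _ μ hT m _ S T hS hTT B q hF
  have := hT.prob
  by_contra hcon
  push Not at hcon
  set N : X → X → Set Y := fun z z' =>
    {y | z ≠ z' ∧ y ∈ B z ∧ y ∈ B z' ∧ q z y = q z' y} with hN
  have hN0 : ∀ z z', m (N z z') = 0 := by
    intro z z'
    by_cases hz : z = z'
    · have : N z z' = ∅ := by
        ext y
        simp [hN, hz]
      rw [this, measure_empty]
    · refine measure_mono_null ?_ (hcon z z' hz)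
      intro y hy
      exact hy.2
  set M : X → Set Y := fun z => {y | μ {z' | y ∈ N z z'} ≠ 0} with hM
  have hM0 : ∀ z, m (M z) = 0 := by
    intro z
    apply h X μ hT.allM m (N z)
    have : {z' | m (N z z') ≠ 0} = ∅ := by
      ext z'
      simp [hN0]
    rw [this, measure_empty]
  set Z : Set Y := {y | μ {z | y ∈ M z} ≠ 0} with hZ
  have hZ0 : m Z = 0 := by
    apply h X μ hT.allM m M
    have : {z | m (M z) ≠ 0} = ∅ := by
      ext z
      simp [hM0]
    rw [this, measure_empty]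
  set A : Y → Set X := fun s => {z | s ∈ B z ∧ q z s ∈ T} with hA
  have claim : ∀ s, s ∉ Z → μ (A s) = 0 := by
    intro s hs
    by_contra hpos
    have hun : A s = ⋃ t : T, {z | z ∈ A s ∧ q z s = t.1} := by
      ext z
      simp only [mem_iUnion, mem_ofPred_eq]
      constructor
      · intro hz
        exact ⟨⟨q z s, hz.2⟩, hz, rfl⟩
      · rintro ⟨t, hz, _⟩
        exact hz
    have hex : ∃ t : T, μ {z | z ∈ A s ∧ q z s = t.1} ≠ 0 := by
      by_contra hc
      push Not at hc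
      apply hpos
      rw [hun]
      exact hT.add T _ hTT hc
    obtain ⟨t, ht⟩ := hex
    apply hs
    have hsub : {z | z ∈ A s ∧ q z s = t.1} ⊆ {z | s ∈ M z} := by
      intro z hz
      have hsub2 : {z | z ∈ A s ∧ q z s = t.1} ⊆ {z' | s ∈ N z z'} ∪ {z} := by
        intro z' hz'
        by_cases hzz : z = z'
        · right
          exact hzz.symm
        · left
          exact ⟨hzz, hz.1.1, hz'.1.1, by rw [hz.2, hz'.2]⟩
      intro h0
      apply ht
      refine measure_mono_null hsub2 (measure_union_null h0 (hT.pts z))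
    intro h0
    exact ht (measure_mono_null hsub h0)
  have hW : μ (⋃ s : {s : S // s.1 ∉ Z}, A s.1.1) = 0 := by
    apply hT.add
    · exact (Cardinal.mk_subtype_le _).trans_lt hS
    · intro s
      exact claim _ s.2
  have hex : ∃ z, z ∉ ⋃ s : {s : S // s.1 ∉ Z}, A s.1.1 := by
    by_contra hc
    push Not at hc
    have : (⋃ s : {s : S // s.1 ∉ Z}, A s.1.1) = univ := eq_univ_iff_forall.2 hc
    rw [this, measure_univ] at hW
    exact one_ne_zero hW
  obtain ⟨z, hz⟩ := hex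
  have hF' := hF z
  obtain ⟨s, hs, hsC, hsT⟩ := hF'.full (B z \ toMeasurable m Z)
    (hF'.mB.diff (measurableSet_toMeasurable _ _)) sdiff_subset (by
      rw [measure_sdiff_null (by rw [measure_toMeasurable]; exact hZ0)]
      exact hF'.pos)
  apply hz
  rw [mem_iUnion]
  refine ⟨⟨⟨s, hs⟩, ?_⟩, hsC.1, hsT⟩
  intro hsZ
  exact hsC.2 (subset_toMeasurable _ _ hsZ)

end Pool.Agent.Work.MP_da56a7_lc.B

end

section

set_option autoImplicit false

open MeasureTheory Set Filter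

namespace Pool.Agent.Work.MP_da56a7_lc.B

theorem pr_Rec : S_Rec := by
  intro I X _ _ b e g
  let F : (α : I) → ((β : I) → β < α → X → Set ℕ) → X → Set ℕ := fun α ih x =>
    {k | x ∈ b α k ∧ Nf (g α) k < val k ∧
      ∀ β (h : β < α), e α β ≤ Nf (g α) k → k ∉ ih β h x}
  refine ⟨WellFounded.fix (wellFounded_lt) F, ?_⟩
  intro α x k
  rw [WellFounded.fix_eq]
  exact Iff.rfl

end Pool.Agent.Work.MP_da56a7_lc.B

end

section

set_option autoImplicit false

open MeasureTheory Set Filter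

namespace Pool.Agent.Work.MP_da56a7_lc.B

namespace AuxSeq

/-- a bit independent of a sequence of sets -/
lemma step1 (h1 : S_NS) (h2 : S_Bit) (X : Type) [MeasurableSpace X] (μ : Measure X)
    (hT : Tot X μ) (hc : Cardinal.mk X ≤ Cardinal.continuum) (c : ℕ → Set X) :
    ∃ R : Set X, ∀ E : Set X, MeasurableSet[MeasurableSpace.generateFrom (range c)] E →
      2 * μ (R ∩ E) = μ E := by
  classical
  have := hT.prob
  let f : X → Y := fun x n => decide (x ∈ c n)
  obtain ⟨R, hR⟩ := h2 X μ hT.allM f (h1 X μ hT hc f)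
  refine ⟨R, fun E hE => ?_⟩
  have hle : MeasurableSpace.generateFrom (range c) ≤
      MeasurableSpace.comap f inferInstance := by
    refine MeasurableSpace.generateFrom_le ?_
    rintro _ ⟨n, rfl⟩
    refine ⟨{y : Y | y n = true}, ?_, ?_⟩
    · have hm : Measurable (fun y : Y => y n) := measurable_pi_apply n
      exact hm (measurableSet_singleton true)
    · ext x
      simp [f]
  obtain ⟨B, hB, rfl⟩ := hle E hE
  exact hR B hB

/-- a bit independent of a countable family of sets -/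
lemma step2 (h1 : S_NS) (h2 : S_Bit) (X : Type) [MeasurableSpace X] (μ : Measure X)
    (hT : Tot X μ) (hc : Cardinal.mk X ≤ Cardinal.continuum) (T : Set (Set X))
    (hTc : T.Countable) :
    ∃ R : Set X, ∀ E : Set X, MeasurableSet[MeasurableSpace.generateFrom T] E →
      2 * μ (R ∩ E) = μ E := by
  obtain ⟨c, hcr⟩ := (hTc.insert ∅).exists_eq_range ⟨∅, mem_insert _ _⟩
  obtain ⟨R, hR⟩ := step1 h1 h2 X μ hT hc c
  refine ⟨R, fun E hE => hR E ?_⟩
  have hle : MeasurableSpace.generateFrom T ≤ MeasurableSpace.generateFrom (range c) :=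
    MeasurableSpace.generateFrom_mono (hcr ▸ subset_insert _ _)
  exact hle E hE

end AuxSeq

/-- a long sequence of bits -/
theorem pr_Seq (h1 : S_NS) (h2 : S_Bit) : S_Seq := by
  classical
  intro X _ μ hT hc J _ _ hJ
  let F : (j : J) → ((i : J) → i < j → Set X) → Set X := fun j ih =>
    Classical.epsilon (fun R : Set X => ∀ E : Set X,
      MeasurableSet[MeasurableSpace.generateFrom {s | ∃ (i : J) (h : i < j), s = ih i h}] E →
      2 * μ (R ∩ E) = μ E)
  let R : J → Set X := (wellFounded_lt (α := J)).fix F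
  have hRj : ∀ j, R j = F j (fun i _ => R i) := fun j =>
    (wellFounded_lt (α := J)).fix_eq F j
  refine ⟨R, fun j E hE => ?_⟩
  have hcount : ({s | ∃ (i : J) (_ : i < j), s = R i} : Set (Set X)).Countable := by
    refine ((hJ j).image R).mono ?_
    rintro s ⟨i, hi, rfl⟩
    exact ⟨i, hi, rfl⟩
  have hex := AuxSeq.step2 h1 h2 X μ hT hc _ hcount
  have hspec := Classical.epsilon_spec hex
  have hset : ({s | ∃ i, i < j ∧ s = R i} : Set (Set X)) =
      {s | ∃ (i : J) (_ : i < j), s = R i} := by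
    ext s
    simp
  have hE' : MeasurableSet[MeasurableSpace.generateFrom
      {s | ∃ (i : J) (_ : i < j), s = R i}] E := by
    rw [← hset]
    exact hE
  rw [hRj j]
  exact hspec E hE'

end Pool.Agent.Work.MP_da56a7_lc.B

end

section

set_option autoImplicit false

/-!
# Small: small sets are null
-/

open MeasureTheory Set Filter

namespace Pool.Agent.Work.MP_da56a7_lc.B

theorem pr_Small : S_Small := by
  intro X _ μ hT
  have h1 : ∀ s : Set X, Cardinal.mk s < Cardinal.mk X → μ s = 0 := by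
    intro s hs
    have hun : s = ⋃ i : s, {i.1} := by
      ext x
      simp
    rw [hun]
    exact hT.add s _ hs fun i => hT.pts _
  exact ⟨h1, fun ι N hι hN => hT.add ι N hι fun i => h1 _ (hN i)⟩

end Pool.Agent.Work.MP_da56a7_lc.B

end

section

set_option autoImplicit false

open MeasureTheory Set Filter

namespace Pool.Agent.Work.MP_da56a7_lc.B

theorem pr_Ulam (h : S_Small) : S_Ulam := by
  classical
  intro X _ μ hT
  have _ := h
  have _hp := hT.prob
  have hna : NullSingletonClass μ := ⟨hT.pts⟩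
  by_contra hcon
  have hX1 : Cardinal.mk X = Cardinal.aleph 1 :=
    le_antisymm (not_lt.1 hcon) (Cardinal.aleph_one_le_iff.2 hT.unc)
  have hW : Cardinal.mk (Cardinal.aleph 1).ord.ToType = Cardinal.aleph 1 :=
    Cardinal.mk_ord_toType _
  obtain ⟨φ⟩ : Nonempty (X ≃ (Cardinal.aleph 1).ord.ToType) :=
    Cardinal.eq.1 (hX1.trans hW.symm)
  have hcW : ∀ w : (Cardinal.aleph 1).ord.ToType, (Iio w).Countable := by
    intro w
    have h1 : Cardinal.mk (Iio w) < Cardinal.aleph 1 := by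
      have := Cardinal.mk_Iio_lt w (by rw [hW]; simp)
      rwa [hW] at this
    exact Cardinal.le_aleph0_iff_set_countable.1 (Cardinal.lt_aleph_one_iff.1 h1)
  have hc : ∀ y : X, {x | φ x < φ y}.Countable := by
    intro y
    exact (hcW (φ y)).preimage_of_injOn φ.injective.injOn
  have he : ∀ y : X, ∃ e : X → ℕ, InjOn e {x | φ x < φ y} := fun y =>
    countable_iff_exists_injOn.1 (hc y)
  choose e he using he
  have hpos : ∀ x : X, ∃ n : ℕ, 0 < μ {y | φ x < φ y ∧ e y x = n} := by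
    intro x
    by_contra hx
    push Not at hx
    have h1 : μ {y | φ x < φ y} = 0 := by
      have h2 : μ (⋃ n : ℕ, {y | φ x < φ y ∧ e y x = n}) = 0 :=
        measure_iUnion_null fun n => le_antisymm (hx n) bot_le
      refine measure_mono_null ?_ h2
      intro y hy
      exact mem_iUnion.2 ⟨e y x, hy, rfl⟩
    have h3 : μ ({y | φ y < φ x} ∪ {x}) = 0 :=
      ((hc x).union (countable_singleton x)).measure_zero μ
    have h4 : μ (univ : Set X) = 0 := by
      refine measure_mono_null ?_ (measure_union_null h1 h3)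
      intro y _
      rcases lt_trichotomy (φ x) (φ y) with hlt | heq | hgt
      · exact Or.inl hlt
      · exact Or.inr (Or.inr (φ.injective heq).symm)
      · exact Or.inr (Or.inl hgt)
    rw [measure_univ] at h4
    exact one_ne_zero h4
  have hcn : ∀ n : ℕ, {x : X | 0 < μ {y | φ x < φ y ∧ e y x = n}}.Countable := by
    intro n
    refine Measure.countable_meas_pos_of_disjoint_iUnion (fun x => hT.allM _) ?_
    intro x x' hxx
    refine Set.disjoint_left.2 fun y hy hy' => hxx ?_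
    exact he y hy.1 hy'.1 (hy.2.trans hy'.2.symm)
  have huniv : (univ : Set X).Countable := by
    refine (countable_iUnion hcn).mono ?_
    intro x _
    obtain ⟨n, hn⟩ := hpos x
    exact mem_iUnion.2 ⟨n, hn⟩
  have hcX : Countable X := countable_univ_iff.1 huniv
  exact absurd hT.unc (not_lt.2 (Cardinal.mk_le_aleph0_iff.2 hcX))

end Pool.Agent.Work.MP_da56a7_lc.B

end
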